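import Mathlib
import Pool.Agent.N906.FH.Stm

/-!
# FH-GAIN3 (project FH, helper906): local gains for the stable height

With `v = v_p(D)` take `n` the product of `p ^ v` (`p = 2, 3`), `p ^ (v - 1)` (`p ∤ a`) and `p ^ (v - 7)`
(`p ∣ a`), and `g = gcd (6912 a³, D)`. Then `den (jE) * max (1, |jE|) ≤ 6912 Mx / g`, and
`|D| ≤ n * Nc * g ^ (1 - lam)`, prime by prime.
-/

set_option autoImplicit false

namespace Pool.Agent.N216.FH

open Pool.Agent.N906.FH Pool.Agent.N906.SZ

lemma jE_eq (a b : ℤ) : jE a b = (6912 * (a : ℚ) ^ 3) / ((Dd a b : ℤ) : ℚ) := by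
  have h1 : (Ec a b).c₄ ^ 3 = 16 * (6912 * (a : ℚ) ^ 3) := by
    simp only [Ec, WeierstrassCurve.c₄, WeierstrassCurve.b₂, WeierstrassCurve.b₄]
    ring
  have h2 : (Ec a b).Δ = 16 * ((Dd a b : ℤ) : ℚ) := by
    simp only [Ec, Dd, WeierstrassCurve.Δ, WeierstrassCurve.b₂, WeierstrassCurve.b₄,
      WeierstrassCurve.b₆, WeierstrassCurve.b₈]
    push_cast
    ring
  unfold jE
  rw [h1, h2, mul_div_mul_left _ _ (by norm_num : (16 : ℚ) ≠ 0)]

/-- if `p` divides `a` exactly once then `p ^ 4` does not divide `D` -/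
lemma key (p : ℕ) (hp : p.Prime) (h5 : 5 ≤ p) (a b : ℤ) (ha : (p : ℤ) ∣ a)
    (ha2 : ¬ (p : ℤ) ^ 2 ∣ a) : ¬ (p : ℤ) ^ 4 ∣ Dd a b := by
  intro h
  have hpi : Prime (p : ℤ) := Nat.prime_iff_prime_int.1 hp
  have hp0 : (p : ℤ) ≠ 0 := hpi.ne_zero
  have h27 : ¬ (p : ℤ) ∣ 27 := by
    intro hd
    have : p ∣ 27 := by exact_mod_cast hd
    have h3 : p ∣ 3 := hp.dvd_of_dvd_pow (show p ∣ 3 ^ 3 by simpa using this)
    have := Nat.le_of_dvd (by norm_num) h3
    omega
  have h4 : ¬ (p : ℤ) ∣ 4 := by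
    intro hd
    have : p ∣ 4 := by exact_mod_cast hd
    have := Nat.le_of_dvd (by norm_num) this
    omega
  obtain ⟨a', rfl⟩ := ha
  have hb : (p : ℤ) ∣ b := by
    have h1 : (p : ℤ) ∣ 27 * b ^ 2 := by
      have h2 : (p : ℤ) ∣ Dd (p * a') b := dvd_trans (dvd_pow_self _ (by norm_num)) h
      have h3 : 27 * b ^ 2 = p * (4 * p ^ 2 * a' ^ 3) - Dd (p * a') b := by
        unfold Dd
        ring
      rw [h3]
      exact dvd_sub (dvd_mul_right _ _) h2
    exact hpi.dvd_of_dvd_pow ((hpi.dvd_or_dvd h1).resolve_left h27)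
  obtain ⟨b', rfl⟩ := hb
  have h2 : (p : ℤ) ^ 2 ∣ 4 * p * a' ^ 3 - 27 * b' ^ 2 := by
    have h3 : Dd (p * a') (p * b') = p ^ 2 * (4 * p * a' ^ 3 - 27 * b' ^ 2) := by
      unfold Dd
      ring
    rw [h3, show (p : ℤ) ^ 4 = p ^ 2 * p ^ 2 by ring] at h
    exact (mul_dvd_mul_iff_left (pow_ne_zero 2 hp0)).1 h
  have hb' : (p : ℤ) ∣ b' := by
    have h1 : (p : ℤ) ∣ 27 * b' ^ 2 := by
      have h3 : 27 * b' ^ 2 = p * (4 * a' ^ 3) - (4 * p * a' ^ 3 - 27 * b' ^ 2) := by ring
      rw [h3]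
      exact dvd_sub (dvd_mul_right _ _) (dvd_trans (dvd_pow_self _ (by norm_num)) h2)
    exact hpi.dvd_of_dvd_pow ((hpi.dvd_or_dvd h1).resolve_left h27)
  obtain ⟨b'', rfl⟩ := hb'
  have h3 : (p : ℤ) ∣ 4 * a' ^ 3 := by
    have h5 : (p : ℤ) * p ∣ p * (4 * a' ^ 3) := by
      have h6 : (p : ℤ) * (4 * a' ^ 3) =
          (4 * p * a' ^ 3 - 27 * (p * b'') ^ 2) + p * p * (27 * b'' ^ 2) := by ring
      rw [h6]
      refine dvd_add ?_ (dvd_mul_right _ _)
      rw [← sq]
      exact h2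
    exact (mul_dvd_mul_iff_left hp0).1 h5
  have h7 : (p : ℤ) ∣ a' := hpi.dvd_of_dvd_pow ((hpi.dvd_or_dvd h3).resolve_left h4)
  apply ha2
  rw [sq]
  exact mul_dvd_mul_left _ h7

/-- the greatest common divisor of `6912 a³` and `D` -/
def gg (a b : ℤ) : ℕ := Nat.gcd (6912 * a.natAbs ^ 3) (Dd a b).natAbs

lemma gg_ne {a b : ℤ} (hD : Dd a b ≠ 0) : gg a b ≠ 0 := by
  unfold gg
  intro h
  exact hD (Int.natAbs_eq_zero.1 (Nat.eq_zero_of_gcd_eq_zero_right h))

lemma gg_fac (p : ℕ) (hp : p.Prime) (h5 : 5 ≤ p) (a b : ℤ) (hD : Dd a b ≠ 0) (ha : (p : ℤ) ∣ a) :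
    min ((Dd a b).natAbs.factorization p) 6 ≤ (gg a b).factorization p := by
  have hDn : (Dd a b).natAbs ≠ 0 := Int.natAbs_ne_zero.2 hD
  rw [← hp.pow_dvd_iff_le_factorization (gg_ne hD)]
  have hv : p ^ min ((Dd a b).natAbs.factorization p) 6 ∣ (Dd a b).natAbs :=
    (hp.pow_dvd_iff_le_factorization hDn).2 (min_le_left _ _)
  refine Nat.dvd_gcd (Dvd.dvd.mul_left ?_ _) hv
  have ha' : p ∣ a.natAbs := Int.natCast_dvd.1 ha
  by_cases ha2 : (p : ℤ) ^ 2 ∣ a
  · have h1 : p ^ 2 ∣ a.natAbs := by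
      apply Int.natCast_dvd.1
      exact_mod_cast ha2
    have h2 : p ^ 6 ∣ a.natAbs ^ 3 := by
      have := pow_dvd_pow_of_dvd h1 3
      rwa [← pow_mul] at this
    exact dvd_trans (pow_dvd_pow _ (min_le_right _ _)) h2
  · have h1 := key p hp h5 a b ha ha2
    have h2 : (Dd a b).natAbs.factorization p ≤ 3 := by
      by_contra hcon
      push Not at hcon
      apply h1
      have h3 : p ^ 4 ∣ (Dd a b).natAbs := (hp.pow_dvd_iff_le_factorization hDn).2 hcon
      have h4 := Int.natCast_dvd.2 h3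
      exact_mod_cast h4
    have h3 : p ^ 3 ∣ a.natAbs ^ 3 := pow_dvd_pow_of_dvd ha' 3
    exact dvd_trans (pow_dvd_pow _ ((min_le_left _ _).trans h2)) h3

/-- the local inequality -/
lemma loc (p v γ : ℕ) (lam : ℝ) (hp : 1 ≤ p) (h0 : 0 < lam) (h1 : lam < 1 / 6)
    (hγ : min v 6 ≤ γ) :
    (p : ℝ) ^ v ≤ (p : ℝ) ^ (v - 7) * (p : ℝ) ^ 2 * ((p : ℝ) ^ γ) ^ (1 - lam) := by
  have hp' : (1 : ℝ) ≤ p := by exact_mod_cast hp
  have hp0 : (0 : ℝ) < p := by linarith
  rw [← Real.rpow_natCast (p : ℝ) v, ← Real.rpow_natCast (p : ℝ) (v - 7),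
    ← Real.rpow_natCast (p : ℝ) 2, ← Real.rpow_natCast (p : ℝ) γ, ← Real.rpow_mul hp0.le,
    ← Real.rpow_add hp0, ← Real.rpow_add hp0]
  apply Real.rpow_le_rpow_of_exponent_le hp'
  have hγ' : ((min v 6 : ℕ) : ℝ) ≤ γ := by exact_mod_cast hγ
  have h2 : (γ : ℝ) * (5 / 6) ≤ γ * (1 - lam) := by
    apply mul_le_mul_of_nonneg_left
    · linarith
    · positivity
  push_cast
  rcases le_or_gt v 6 with h | h
  · rw [min_eq_left h] at hγ'
    have h3 : ((v - 7 : ℕ) : ℝ) = 0 := by
      rw [Nat.sub_eq_zero_of_le (by omega)]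
      simp
    rw [h3]
    have h4 : (v : ℝ) ≤ 6 := by exact_mod_cast h
    linarith
  · rw [min_eq_right h.le] at hγ'
    push_cast at hγ'
    have h3 : ((v - 7 : ℕ) : ℝ) = (v : ℝ) - 7 := by
      rw [Nat.cast_sub (by omega)]
      simp
    rw [h3]
    linarith

theorem gain3 : S_GAIN3 := by
  intro lam K hlam hlam' hK
  refine ⟨6912 * K, by linarith, ?_⟩
  intro a b hM hN
  have hD : Dd a b ≠ 0 := hM.1
  have hDn : (Dd a b).natAbs ≠ 0 := Int.natAbs_ne_zero.2 hD
  set v : ℕ → ℕ := fun p => (Dd a b).natAbs.factorization p with hv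
  set P := (Dd a b).natAbs.primeFactors with hP
  set e : ℕ → ℕ := fun p => if p < 5 then v p else if (p : ℤ) ∣ a then v p - 7 else v p - 1
    with he
  have hev : ∀ p, v p = 0 → e p = 0 := by
    intro p h
    simp only [he, h]
    split_ifs <;> rfl
  let f : ℕ →₀ ℕ := Finsupp.onFinset P e (by
    intro p hp
    rw [hP, ← Nat.support_factorization, Finsupp.mem_support_iff]
    exact fun h => hp (hev p h))
  have hfP : f.support ⊆ P := Finsupp.support_onFinset_subset
  have hfp : ∀ p ∈ f.support, p.Prime := fun p hp => Nat.prime_of_mem_primeFactors (hfP hp)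
  set n := f.prod (fun p k => p ^ k) with hn
  have hnf : n.factorization = f := Nat.prod_pow_factorization_eq_self hfp
  have hnP : n = ∏ p ∈ P, p ^ e p := by
    rw [hn, Finsupp.prod_of_support_subset f hfP _ (by simp)]
    rfl
  have hPp : ∀ p ∈ P, p.Prime := fun p hp => Nat.prime_of_mem_primeFactors hp
  have hn1 : 1 ≤ n := by
    rw [hnP]
    exact Finset.prod_pos fun p hp => pow_pos (hPp p hp).pos _
  have hpow : ∀ p : ℕ, (p : ℤ) ^ v p ∣ Dd a b := by
    intro p
    have h1 : p ^ v p ∣ (Dd a b).natAbs := Nat.ordProj_dvd _ p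
    have h2 := Int.natCast_dvd.2 h1
    exact_mod_cast h2
  refine ⟨n, hn1, ?_, ?_⟩
  · intro p hp
    have hpf : n.factorization p = e p := by
      rw [hnf]
      rfl
    have hp1 : e p ≠ 0 := by
      rw [← hpf, ← Finsupp.mem_support_iff, Nat.support_factorization]
      exact hp
    rw [hpf]
    constructor
    · intro h5
      have h6 : e p = v p := by
        simp only [he]
        rw [if_pos h5]
      rw [h6]
      exact hpow p
    · intro h5
      by_cases hpa : (p : ℤ) ∣ a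
      · right
        have h6 : e p = v p - 7 := by
          simp only [he]
          rw [if_neg (by omega), if_pos hpa]
        rw [h6] at hp1 ⊢
        refine ⟨hpa, ?_⟩
        rw [Nat.sub_add_cancel (by omega)]
        exact hpow p
      · left
        have h6 : e p = v p - 1 := by
          simp only [he]
          rw [if_neg (by omega), if_neg hpa]
        rw [h6] at hp1 ⊢
        refine ⟨hpa, ?_⟩
        rw [Nat.sub_add_cancel (by omega)]
        exact hpow p
  · set g := gg a b with hg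
    have hg0 : g ≠ 0 := gg_ne hD
    have hgD : g ∣ (Dd a b).natAbs := Nat.gcd_dvd_right _ _
    have hgP : g = ∏ p ∈ P, p ^ g.factorization p := by
      conv_lhs => rw [← Nat.prod_factorization_pow_eq_self hg0]
      refine Finsupp.prod_of_support_subset _ ?_ _ (by simp)
      rw [Nat.support_factorization]
      exact Nat.primeFactors_mono hgD hDn
    have hDP : (Dd a b).natAbs = ∏ p ∈ P, p ^ v p := by
      conv_lhs => rw [← Nat.prod_factorization_pow_eq_self hDn]
      rfl
    set F : ℕ → ℕ := fun p => if 5 ≤ p then (if (p : ℤ) ∣ a then p ^ 2 else p) else 1 with hF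
    have hNc : Nc a b = ∏ p ∈ P, F p := by
      unfold Nc
      rw [Finset.prod_filter]
    have habs : |((Dd a b : ℤ) : ℝ)| = ((Dd a b).natAbs : ℝ) := by
      rw [Nat.cast_natAbs, Int.cast_abs]
    have hDpos : (0 : ℝ) < |((Dd a b : ℤ) : ℝ)| := by
      rw [habs]
      exact_mod_cast Nat.pos_of_ne_zero hDn
    have hgpos : (0 : ℝ) < g := by exact_mod_cast Nat.pos_of_ne_zero hg0
    -- the main inequality
    have hmain : |((Dd a b : ℤ) : ℝ)| ≤ n * Nc a b * (g : ℝ) ^ (1 - lam) := by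
      have e1 : (g : ℝ) ^ (1 - lam) = ∏ p ∈ P, ((p : ℝ) ^ g.factorization p) ^ (1 - lam) := by
        rw [Real.finsetProd_rpow _ _ fun p _ => by positivity]
        congr 1
        conv_lhs => rw [hgP]
        push_cast
        rfl
      rw [habs, hDP, hnP, hNc, e1]
      push_cast
      rw [← Finset.prod_mul_distrib, ← Finset.prod_mul_distrib]
      refine Finset.prod_le_prod (fun p _ => by positivity) fun p hp => ?_
      have hpp := hPp p hp
      have hp1 : (1 : ℝ) ≤ p := by exact_mod_cast hpp.one_le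
      have hone : (1 : ℝ) ≤ ((p : ℝ) ^ g.factorization p) ^ (1 - lam) :=
        Real.one_le_rpow (one_le_pow₀ hp1) (by linarith)
      have hvp : v p ≠ 0 := by
        have : p ∈ (Dd a b).natAbs.factorization.support := by
          rw [Nat.support_factorization]
          exact hp
        exact Finsupp.mem_support_iff.1 this
      by_cases h5 : p < 5
      · have h6 : e p = v p := by
          simp only [he]
          rw [if_pos h5]
        have h7 : F p = 1 := by
          simp only [hF]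
          rw [if_neg (by omega)]
        rw [h6, h7, Nat.cast_one, mul_one]
        exact le_mul_of_one_le_right (by positivity) hone
      · by_cases hpa : (p : ℤ) ∣ a
        · have h6 : e p = v p - 7 := by
            simp only [he]
            rw [if_neg h5, if_pos hpa]
          have h7 : F p = p ^ 2 := by
            simp only [hF]
            rw [if_pos (by omega), if_pos hpa]
          rw [h6, h7, Nat.cast_pow]
          exact loc p (v p) _ lam hpp.one_le hlam hlam' (gg_fac p hpp (by omega) a b hD hpa)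
        · have h6 : e p = v p - 1 := by
            simp only [he]
            rw [if_neg h5, if_neg hpa]
          have h7 : F p = p := by
            simp only [hF]
            rw [if_pos (by omega), if_neg hpa]
          rw [h6, h7, ← pow_succ, Nat.sub_add_cancel (by omega)]
          exact le_mul_of_one_le_right (by positivity) hone
    -- the denominator
    obtain ⟨D', hD'⟩ : (g : ℤ) ∣ Dd a b := Int.natCast_dvd.2 hgD
    obtain ⟨A', hA'⟩ : (g : ℤ) ∣ 6912 * a ^ 3 := by
      apply Int.natCast_dvd.2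
      rw [Int.natAbs_mul, Int.natAbs_pow]
      exact Nat.gcd_dvd_left _ _
    have hD'0 : D' ≠ 0 := by
      rintro rfl
      exact hD (by rw [hD', mul_zero])
    have hgQ : ((g : ℤ) : ℚ) ≠ 0 := by exact_mod_cast hg0
    have hj : jE a b = (A' : ℚ) / (D' : ℚ) := by
      rw [jE_eq]
      have h1 : (6912 * (a : ℚ) ^ 3) = ((g : ℤ) : ℚ) * A' := by exact_mod_cast hA'
      have h2 : ((Dd a b : ℤ) : ℚ) = ((g : ℤ) : ℚ) * D' := by exact_mod_cast hD'
      rw [h1, h2, mul_div_mul_left _ _ hgQ]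
    have hden : ((jE a b).den : ℝ) * g ≤ |((Dd a b : ℤ) : ℝ)| := by
      have h1 : (((jE a b).den : ℕ) : ℤ) ∣ D' := by
        rw [hj, ← Rat.divInt_eq_div]
        exact Rat.den_dvd A' D'
      have h2 : (((jE a b).den : ℕ) : ℤ) ≤ |D'| := Int.le_of_dvd (abs_pos.2 hD'0)
        ((dvd_abs _ _).2 h1)
      have h3 : ((jE a b).den : ℝ) ≤ |(D' : ℝ)| := by exact_mod_cast h2
      rw [hD']
      push_cast
      rw [abs_mul, Nat.abs_cast, mul_comm]
      exact mul_le_mul_of_nonneg_left h3 hgpos.le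
    have hMD : |((Dd a b : ℤ) : ℝ)| ≤ Mx a b := le_max_right _ _
    have hMa : |(a : ℝ)| ^ 3 ≤ Mx a b := le_max_left _ _
    have hmax : max 1 |((jE a b : ℚ) : ℝ)| ≤ 6912 * Mx a b / |((Dd a b : ℤ) : ℝ)| := by
      rw [le_div_iff₀ hDpos]
      have h1 : |((jE a b : ℚ) : ℝ)| * |((Dd a b : ℤ) : ℝ)| = 6912 * |(a : ℝ)| ^ 3 := by
        rw [jE_eq]
        push_cast
        rw [abs_div, div_mul_cancel₀ _ hDpos.ne', abs_mul, abs_pow]
        norm_num
      rcases max_choice 1 |((jE a b : ℚ) : ℝ)| with h | h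
      · rw [h]
        linarith [abs_nonneg ((Dd a b : ℤ) : ℝ)]
      · rw [h, h1]
        linarith
    have hMpos : 0 < Mx a b := hDpos.trans_le hMD
    have hprod : ((jE a b).den : ℝ) * max 1 |((jE a b : ℚ) : ℝ)| ≤ 6912 * Mx a b / g := by
      calc ((jE a b).den : ℝ) * max 1 |((jE a b : ℚ) : ℝ)|
          ≤ (|((Dd a b : ℤ) : ℝ)| / g) * (6912 * Mx a b / |((Dd a b : ℤ) : ℝ)|) := by
            refine mul_le_mul ?_ hmax (le_max_of_le_left zero_le_one) (by positivity)
            rw [le_div_iff₀ hgpos]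
            exact hden
        _ = 6912 * Mx a b / g := by
            field_simp
    have hfin : (Nc a b : ℝ) * (g : ℝ) ^ (1 - lam) ≤ 6912 * K * Mx a b ^ (1 - lam) := by
      have h1 : (((jE a b).den : ℝ) * max 1 |((jE a b : ℚ) : ℝ)|) ^ (1 - lam) ≤
          (6912 * Mx a b / g) ^ (1 - lam) := by
        refine Real.rpow_le_rpow ?_ hprod (by linarith)
        exact mul_nonneg (by positivity) (le_max_of_le_left zero_le_one)
      have h2 : (6912 * Mx a b / g) ^ (1 - lam) =
          6912 ^ (1 - lam) * Mx a b ^ (1 - lam) / (g : ℝ) ^ (1 - lam) := by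
        rw [Real.div_rpow (by positivity) hgpos.le, Real.mul_rpow (by norm_num) hMpos.le]
      have h3 : (6912 : ℝ) ^ (1 - lam) ≤ 6912 := by
        calc (6912 : ℝ) ^ (1 - lam) ≤ 6912 ^ (1 : ℝ) :=
              Real.rpow_le_rpow_of_exponent_le (by norm_num) (by linarith)
          _ = 6912 := Real.rpow_one _
      have h4 : (0 : ℝ) < (g : ℝ) ^ (1 - lam) := Real.rpow_pos_of_pos hgpos _
      have h5 : (0 : ℝ) < Mx a b ^ (1 - lam) := Real.rpow_pos_of_pos hMpos _
      calc (Nc a b : ℝ) * (g : ℝ) ^ (1 - lam)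
          ≤ (K * (6912 ^ (1 - lam) * Mx a b ^ (1 - lam) / (g : ℝ) ^ (1 - lam))) *
            (g : ℝ) ^ (1 - lam) := by
            refine mul_le_mul_of_nonneg_right (hN.trans ?_) h4.le
            rw [← h2]
            exact mul_le_mul_of_nonneg_left h1 (by linarith)
        _ = K * 6912 ^ (1 - lam) * Mx a b ^ (1 - lam) := by
            field_simp
        _ ≤ K * 6912 * Mx a b ^ (1 - lam) := by
            refine mul_le_mul_of_nonneg_right ?_ h5.le
            exact mul_le_mul_of_nonneg_left h3 (by linarith)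
        _ = _ := by ring
    calc |((Dd a b : ℤ) : ℝ)| ≤ n * Nc a b * (g : ℝ) ^ (1 - lam) := hmain
      _ = n * (Nc a b * (g : ℝ) ^ (1 - lam)) := by ring
      _ ≤ n * (6912 * K * Mx a b ^ (1 - lam)) :=
          mul_le_mul_of_nonneg_left hfin (by positivity)
      _ = 6912 * K * n * Mx a b ^ (1 - lam) := by ring

end Pool.Agent.N216.FH
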