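import Pool.Agent.N906.KG.Nt
import Pool.Agent.W223.AK.Basic
import Pool.Agent.N803.RS_CNT

/-!
# Project KG (helper906), MP_7475bd_nt: many points with given divisors
-/

set_option autoImplicit false

namespace Pool.Agent.N216.KG

open NumberField IsDedekindDomain Finset Filter Topology Pool.Agent.H691R3 Pool.Agent.W223.AK
open Pool.Agent.N906.KG
open Pool.Agent.N906.NT (Cx cst Dl)

section Basic

variable {K : Type} [Field K] [NumberField K] {n N : ℕ}

lemma Nv0 (v : Pr K) : 0 < Nv v := by linarith [two_le_Nv v]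

lemma Nv1 (v : Pr K) : 1 < Nv v := by linarith [two_le_Nv v]

lemma exp_log_Nv (v : Pr K) : Real.exp (-Real.log (Nv v)) = (Nv v)⁻¹ := by
  rw [Real.exp_neg, Real.exp_log (Nv0 v)]

/-- volume of a constant box -/
lemma bn_const (B : ℝ) : bn (fun _ : InfinitePlace K => B) = B ^ Module.finrank ℚ K := by
  unfold bn
  rw [Finset.prod_pow_eq_pow_sum, InfinitePlace.sum_mult_eq]

lemma Rj_const (B : ℝ) (e : Fin (N + 1) ≃ Fin (N + 1)) (j : Fin N) :
    Rj (K := K) (fun _ _ => B) e j = B ^ Module.finrank ℚ K := by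
  unfold Rj
  rw [← bn_const (K := K)]
  congr 1
  funext w
  have : Nonempty {i : Fin (N + 1) // j.castSucc < i} := ⟨⟨Fin.last N, Fin.castSucc_lt_last j⟩⟩
  rw [ciSup_const, min_self]

lemma mem_sp {D : Fin n → Idl K} {v : Pr K} : v ∈ sp D ↔ ∃ i, D i v ≠ 0 := by
  classical
  unfold sp
  simp [Finset.mem_biUnion]

lemma lj_ge (D : Fin (N + 1) → Idl K) (e : Fin (N + 1) ≃ Fin (N + 1)) (j : Fin N) (v : Pr K) :
    (D (e j.castSucc) v : ℝ) * Real.log (Nv v) ≤ lj D e j := by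
  unfold lj
  have h0 : ∀ u ∈ sp D, 0 ≤ ((max (D (e j.castSucc) u)
    (⨅ i : {i : Fin (N + 1) // j.castSucc < i}, D (e i) u) : ℕ) : ℝ) * Real.log (Nv u) :=
    fun u _ => mul_nonneg (Nat.cast_nonneg _) (log_Nv_pos u).le
  by_cases hv : v ∈ sp D
  · refine le_trans ?_ (single_le_sum h0 hv)
    apply mul_le_mul_of_nonneg_right _ (log_Nv_pos v).le
    rw [Nat.cast_le]
    exact le_max_left _ _
  · have : D (e j.castSucc) v = 0 := by
      by_contra h
      exact hv (mem_sp.2 ⟨_, h⟩)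
    rw [this, Nat.cast_zero, zero_mul]
    exact sum_nonneg h0

lemma len_single (v : Pr K) (k : ℕ) : len (Finsupp.single v k : Idl K) = k * Real.log (Nv v) := by
  rw [len_eq_sum (s := {v}) Finsupp.support_single_subset]
  simp

lemma tl_add (D E : Fin n → Idl K) : tl (D + E) = tl D + tl E := by
  unfold tl
  rw [← sum_add_distrib]
  exact sum_congr rfl fun i _ => len_add _ _

lemma tl_single (i : Fin n) (a : Idl K) : tl (Pi.single i a : Fin n → Idl K) = len a := by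
  unfold tl
  rw [Finset.sum_eq_single i]
  · rw [Pi.single_eq_same]
  · intro j _ hj
    rw [Pi.single_eq_of_ne hj, len_zero]
  · intro h; exact absurd (mem_univ _) h

lemma tl_nonneg (D : Fin n → Idl K) : 0 ≤ tl D := sum_nonneg fun i _ => len_nonneg _

lemma w_sum_le {ι : Type*} (w : InfinitePlace K) (s : Finset ι) (f : ι → K) {B : ℝ}
    (h : ∀ i ∈ s, w (f i) ≤ B) : w (∑ i ∈ s, f i) ≤ s.card * B := by
  classical
  induction s using Finset.induction_on with
  | empty => simp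
  | insert a s ha ih =>
    rw [sum_insert ha, card_insert_of_notMem ha]
    have h0 : w (f a + ∑ i ∈ s, f i) ≤ w (f a) + w (∑ i ∈ s, f i) := w.1.add_le _ _
    refine h0.trans ?_
    have h1 := h a (mem_insert_self _ _)
    have h2 := ih fun i hi => h i (mem_insert_of_mem hi)
    push_cast
    linarith

/-! ### Counting with `SEQ0` -/

lemma box1 (h1 : S_SEQ0 K) : ∃ C : ℝ, 0 < C ∧ ∀ (B : ℝ) (G : Finset (𝓞 K)), 0 < B →
    (∀ a ∈ G, ∀ w : InfinitePlace K, w (a : K) ≤ B) →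
    (G.card : ℝ) ≤ C * (B ^ Module.finrank ℚ K + 1) := by
  classical
  obtain ⟨C, hC, h⟩ := h1 1 le_rfl
  refine ⟨C, hC, fun B G hB hG => ?_⟩
  have hinj : Function.Injective (fun a : 𝓞 K => (![a, -a] : Fin (1 + 1) → 𝓞 K)) := by
    intro a b hab
    exact congrFun hab 0
  have h2 := h (Equiv.refl _) 0 0 0 (fun _ _ => B)
    (G.image fun a : 𝓞 K => (![a, -a] : Fin (1 + 1) → 𝓞 K)) (fun _ _ => hB) (fun v => Or.inl rfl)
    (by
      intro x hx
      obtain ⟨a, ha, rfl⟩ := mem_image.1 hx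
      refine ⟨?_, ?_, ?_, ?_⟩
      · rw [Fin.sum_univ_two]
        simp
      · intro k v
        simpa using fv_int_le_one v _
      · intro k v
        simpa using fv_int_le_one v _
      · intro k w
        fin_cases k
        · exact hG a ha w
        · have : ((-a : 𝓞 K) : K) = -(a : K) := by simp
          show w ((-a : 𝓞 K) : K) ≤ B
          have h3 : w (-(a : K)) = w (a : K) := w.1.map_neg _
          rw [this, h3]
          exact hG a ha w)
  rw [card_image_of_injective _ hinj] at h2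
  refine h2.trans ?_
  apply mul_le_mul_of_nonneg_left _ hC.le
  rw [Fin.prod_univ_one, Rj_const, len_zero, sub_zero]
  have h3 : 0 ≤ lj (0 : Fin (1 + 1) → Idl K) (Equiv.refl _) (0 : Fin 1) := by
    unfold lj
    exact sum_nonneg fun u _ => mul_nonneg (Nat.cast_nonneg _) (log_Nv_pos u).le
  have h4 : Real.exp (-lj (0 : Fin (1 + 1) → Idl K) (Equiv.refl _) (0 : Fin 1)) ≤ 1 := by
    rw [Real.exp_le_one_iff]
    linarith
  have h5 : 0 ≤ B ^ Module.finrank ℚ K := by positivity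
  nlinarith

/-- two coordinates divisible by a prime -/
lemma big (h1 : S_SEQ0 K) (hN : 2 ≤ N) : ∃ C : ℝ, 0 < C ∧ ∀ (B : ℝ) (v : Pr K)
    (i j : Fin (N + 1)) (F : Finset (Fin (N + 1) → 𝓞 K)), 0 < B →
    Nv v ≤ B ^ Module.finrank ℚ K → i ≠ j →
    (∀ x ∈ F, ∑ k, x k = 0 ∧ fv v (x i : K) ≤ (Nv v)⁻¹ ∧ fv v (x j : K) ≤ (Nv v)⁻¹ ∧
      ∀ k (w : InfinitePlace K), w (x k : K) ≤ B) →
    (F.card : ℝ) ≤ C * (B ^ Module.finrank ℚ K) ^ N * ((Nv v) ^ 2)⁻¹ := by
  classical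
  obtain ⟨C, hC, h⟩ := h1 N (by omega)
  refine ⟨C * 2 ^ N, by positivity, fun B v i j F hB hv hij hF => ?_⟩
  set Q : ℝ := B ^ Module.finrank ℚ K with hQ
  have hv0 := Nv0 v
  have hQ0 : 0 < Q := by rw [hQ]; positivity
  -- a third index
  obtain ⟨k, hk⟩ : ∃ k, k ∉ ({i, j} : Finset (Fin (N + 1))) := by
    by_contra hcon
    push Not at hcon
    have h3 : (univ : Finset (Fin (N + 1))) ⊆ {i, j} := fun k _ => hcon k
    have h4 := card_le_card h3
    rw [card_univ, Fintype.card_fin] at h4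
    have h5 : ({i, j} : Finset (Fin (N + 1))).card ≤ 2 := card_le_two
    omega
  rw [mem_insert, mem_singleton, not_or] at hk
  set D : Fin (N + 1) → Idl K := Pi.single i (Finsupp.single v 1) + Pi.single j (Finsupp.single v 1)
    with hD
  have hDi : D i v = 1 := by
    rw [hD, Pi.add_apply, Pi.single_eq_same, Pi.single_eq_of_ne hij, add_zero, Finsupp.single_eq_same]
  have hDj : D j v = 1 := by
    rw [hD, Pi.add_apply, Pi.single_eq_same, Pi.single_eq_of_ne hij.symm, zero_add,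
      Finsupp.single_eq_same]
  set e : Fin (N + 1) ≃ Fin (N + 1) := Equiv.swap (Fin.last N) k with he
  have hel : e (Fin.last N) = k := Equiv.swap_apply_left _ _
  have h2 := h e D 0 0 (fun _ _ => B) F (fun _ _ => hB) (fun v => Or.inl rfl) (by
    intro x hx
    obtain ⟨hx1, hx2, hx3, hx4⟩ := hF x hx
    refine ⟨hx1, ?_, ?_, hx4⟩
    · intro k' v'
      by_cases hv' : v' = v
      · subst hv'
        by_cases hi : k' = i
        · subst hi
          rw [hDi]
          simpa using hx2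
        · by_cases hj : k' = j
          · subst hj
            rw [hDj]
            simpa using hx3
          · have : D k' v' = 0 := by
              rw [hD, Pi.add_apply, Pi.single_eq_of_ne hi, Pi.single_eq_of_ne hj, add_zero,
                Finsupp.coe_zero, Pi.zero_apply]
            rw [this]
            simpa using fv_int_le_one v' _
      · have : D k' v' = 0 := by
          have h0 : ∀ l : Fin (N + 1), (Pi.single l (Finsupp.single v 1) : Fin (N + 1) → Idl K) k' v' = 0 := by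
            intro l
            by_cases hl : k' = l
            · subst hl
              rw [Pi.single_eq_same, Finsupp.single_eq_of_ne hv']
            · rw [Pi.single_eq_of_ne hl, Finsupp.coe_zero, Pi.zero_apply]
          rw [hD, Pi.add_apply, Finsupp.add_apply, h0, h0]
        rw [this]
        simpa using fv_int_le_one v' _
    · intro k v
      simpa using fv_int_le_one v _)
  refine h2.trans ?_
  rw [mul_assoc, mul_assoc]
  apply mul_le_mul_of_nonneg_left _ hC.le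
  set g : Fin (N + 1) → ℝ := fun l => if l = i ∨ l = j then 2 * Q * (Nv v)⁻¹ else 2 * Q with hg
  have h3 : ∏ l : Fin N, (Rj (K := K) (fun _ _ => B) e l *
      Real.exp (-lj D e l - len (0 : Idl K)) + 1) ≤
      ∏ l : Fin N, g (e l.castSucc) := by
    apply Finset.prod_le_prod
    · intro l _
      rw [Rj_const]
      positivity
    · intro l _
      rw [Rj_const, len_zero, sub_zero, ← hQ, hg]
      have h4 := lj_ge D e l v
      have hQv : 1 ≤ Q * (Nv v)⁻¹ := by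
        rw [← div_eq_mul_inv, le_div_iff₀ hv0, one_mul]
        exact hv
      have hvi : (Nv v)⁻¹ ≤ 1 := inv_le_one_of_one_le₀ (Nv1 v).le
      by_cases hl : e l.castSucc = i ∨ e l.castSucc = j
      · simp only [hl, if_true]
        have h5 : D (e l.castSucc) v = 1 := by
          rcases hl with hl | hl
          · rw [hl]; exact hDi
          · rw [hl]; exact hDj
        rw [h5, Nat.cast_one, one_mul] at h4
        have h6 : Real.exp (-lj D e l) ≤ (Nv v)⁻¹ := by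
          rw [← exp_log_Nv]
          exact Real.exp_le_exp.2 (by linarith)
        have h7 := mul_le_mul_of_nonneg_left h6 hQ0.le
        linarith
      · simp only [hl, if_false]
        have h4' : 0 ≤ lj D e l := le_trans (mul_nonneg (Nat.cast_nonneg _) (log_Nv_pos v).le) h4
        have h6 : Real.exp (-lj D e l) ≤ 1 := by
          rw [Real.exp_le_one_iff]
          linarith
        have h7 := mul_le_mul_of_nonneg_left h6 hQ0.le
        have h8 := mul_le_mul_of_nonneg_left hvi hQ0.le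
        linarith
  refine h3.trans (le_of_eq ?_)
  have h4 : (∏ l : Fin N, g (e l.castSucc)) * g (e (Fin.last N)) = ∏ l, g l := by
    rw [← Fin.prod_univ_castSucc (fun l => g (e l)), Equiv.prod_comp e g]
  have h5 : g (e (Fin.last N)) = 2 * Q := by
    rw [hel, hg]
    simp [hk.1, hk.2]
  have h6 : ∏ l, g l = (2 * Q) ^ (N + 1) * ((Nv v) ^ 2)⁻¹ := by
    have h7 : ∀ l, g l = (2 * Q) * ((if l = i then (Nv v)⁻¹ else 1) * (if l = j then (Nv v)⁻¹ else 1)) := by
      intro l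
      rw [hg]
      by_cases hi : l = i
      · subst hi
        simp [hij]
      · by_cases hj : l = j
        · subst hj
          simp [hi]
        · simp [hi, hj]
    have h8 : ∏ l, g l = (∏ _l : Fin (N + 1), (2 * Q)) * ((∏ l, if l = i then (Nv v)⁻¹ else 1) *
        ∏ l, if l = j then (Nv v)⁻¹ else 1) := by
      rw [prod_congr rfl fun l _ => h7 l, ← prod_mul_distrib, ← prod_mul_distrib]
    rw [h8, prod_ite_eq', prod_ite_eq', prod_const, card_univ, Fintype.card_fin]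
    simp only [mem_univ, if_true]
    rw [pow_two, mul_inv]
  rw [h5, h6] at h4
  have h8 : (2 * Q) ≠ 0 := by positivity
  have h9 : ∏ l : Fin N, g (e l.castSucc) = (2 * Q) ^ N * ((Nv v) ^ 2)⁻¹ := by
    apply mul_right_cancel₀ h8
    rw [h4, pow_succ]
    ring
  rw [h9, mul_pow]
  ring

/-! ### Finiteness and sizes -/

lemma fin_pr (M : ℝ) : {v : Pr K | Nv v ≤ M}.Finite := by
  have h1 := Ideal.finite_setOfPred_absNorm_le (S := 𝓞 K) ⌊M⌋₊
  refine (h1.preimage (f := fun v : Pr K => v.asIdeal) ?_).subset ?_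
  · intro u _ v _ huv
    exact HeightOneSpectrum.ext huv
  · intro v hv
    show Ideal.absNorm v.asIdeal ≤ ⌊M⌋₊
    have h2 : (Ideal.absNorm v.asIdeal : ℝ) ≤ M := hv
    exact Nat.le_floor h2

/-- the primes of norm at most `M` -/
noncomputable def PT (K : Type) [Field K] [NumberField K] (M : ℝ) : Finset (Pr K) :=
  (fin_pr M).toFinset

lemma mem_PT {M : ℝ} {v : Pr K} : v ∈ PT K M ↔ Nv v ≤ M := by
  unfold PT
  rw [Set.Finite.mem_toFinset]
  rfl

lemma Nv_le_of_dvd {a : 𝓞 K} (ha : a ≠ 0) {v : Pr K} (hv : fv v (a : K) ≤ (Nv v)⁻¹) {B : ℝ}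
    (hB : ∀ w : InfinitePlace K, w (a : K) ≤ B) : Nv v ≤ B ^ Module.finrank ℚ K := by
  have h1 : a ∈ v.asIdeal := by
    have := (fv_le_pow_iff v a 1).1 (by simpa using hv)
    simpa using this
  have h2 := Ideal.absNorm_dvd_norm_of_mem h1
  have h3 : Algebra.norm ℤ a ≠ 0 := (Algebra.norm_ne_zero_iff).2 ha
  have h4 : (Ideal.absNorm v.asIdeal : ℤ) ≤ |Algebra.norm ℤ a| :=
    Int.le_of_dvd (abs_pos.2 h3) ((dvd_abs _ _).2 h2)
  have h5 : Nv v ≤ |((Algebra.norm ℤ a : ℤ) : ℝ)| := by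
    unfold Nv
    exact_mod_cast h4
  have h6 := InfinitePlace.prod_eq_abs_norm (a : K)
  have h7 : ((Algebra.norm ℚ (a : K) : ℚ) : ℝ) = ((Algebra.norm ℤ a : ℤ) : ℝ) := by
    rw [← Algebra.coe_norm_int]
    norm_cast
  rw [Rat.cast_abs, h7] at h6
  rw [← h6] at h5
  refine h5.trans ?_
  rw [← bn_const (K := K)]
  unfold bn
  exact Finset.prod_le_prod (fun w _ => pow_nonneg (apply_nonneg w _) _)
    fun w _ => pow_le_pow_left₀ (apply_nonneg w _) (hB w) _

/-! ### Vanishing subsums -/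

lemma van {C B : ℝ} (hC : ∀ G : Finset (𝓞 K),
    (∀ a ∈ G, ∀ w : InfinitePlace K, w (a : K) ≤ B) → (G.card : ℝ) ≤ C)
    (F : Finset (Fin (N + 1) → 𝓞 K)) (hF : ∀ x ∈ F, ∑ k, x k = 0 ∧
      ∀ k (w : InfinitePlace K), w (x k : K) ≤ B) {I : Finset (Fin (N + 1))} (hI : I.Nonempty)
    (hI' : I ≠ univ) (hFI : ∀ x ∈ F, ∑ i ∈ I, x i = 0) : (F.card : ℝ) ≤ C ^ (N - 1) := by
  classical
  obtain ⟨i₀, hi₀⟩ := hI
  obtain ⟨i₁, hi₁⟩ : ∃ i₁, i₁ ∉ I := by
    by_contra hcon
    push Not at hcon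
    exact hI' (eq_univ_iff_forall.2 hcon)
  have hne : i₀ ≠ i₁ := fun h => hi₁ (h ▸ hi₀)
  set G : Finset (𝓞 K) := F.biUnion fun x => univ.image x with hG
  have hGC : (G.card : ℝ) ≤ C := by
    apply hC
    intro a ha w
    rw [hG, mem_biUnion] at ha
    obtain ⟨x, hx, hxa⟩ := ha
    obtain ⟨k, _, rfl⟩ := mem_image.1 hxa
    exact (hF x hx).2 k w
  have hC0 : (0 : ℝ) ≤ G.card := Nat.cast_nonneg _
  have h1 : F.card ≤ (Fintype.piFinset fun k : Fin (N + 1) =>
      if k = i₀ ∨ k = i₁ then ({0} : Finset (𝓞 K)) else G).card := by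
    apply card_le_card_of_injOn (fun x k => if k = i₀ ∨ k = i₁ then 0 else x k)
    · intro x hx
      rw [mem_coe, Fintype.mem_piFinset]
      intro k
      by_cases hk : k = i₀ ∨ k = i₁
      · simp only [hk, if_true, mem_singleton]
      · simp only [hk, if_false]
        rw [hG, mem_biUnion]
        exact ⟨x, hx, mem_image_of_mem _ (mem_univ k)⟩
    · intro x hx y hy hxy
      have h2 : ∀ k, k ≠ i₀ → k ≠ i₁ → x k = y k := by
        intro k h3 h4
        have := congrFun hxy k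
        simpa [h3, h4] using this
      have h3 : x i₀ = y i₀ := by
        have e1 := Finset.add_sum_erase I x hi₀
        have e2 := Finset.add_sum_erase I y hi₀
        rw [hFI x hx] at e1
        rw [hFI y hy] at e2
        have e3 : ∑ k ∈ I.erase i₀, x k = ∑ k ∈ I.erase i₀, y k :=
          sum_congr rfl fun k hk => h2 k (ne_of_mem_erase hk)
            (fun h => hi₁ (h ▸ mem_of_mem_erase hk))
        rw [e3] at e1
        exact add_right_cancel (e1.trans e2.symm)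
      have h4 : x i₁ = y i₁ := by
        have e1 := Finset.add_sum_erase univ x (mem_univ i₁)
        have e2 := Finset.add_sum_erase univ y (mem_univ i₁)
        rw [(hF x hx).1] at e1
        rw [(hF y hy).1] at e2
        have e3 : ∑ k ∈ univ.erase i₁, x k = ∑ k ∈ univ.erase i₁, y k := by
          refine sum_congr rfl fun k hk => ?_
          by_cases hk0 : k = i₀
          · rw [hk0]; exact h3
          · exact h2 k hk0 (ne_of_mem_erase hk)
        rw [e3] at e1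
        exact add_right_cancel (e1.trans e2.symm)
      funext k
      by_cases hk0 : k = i₀
      · rw [hk0]; exact h3
      · by_cases hk1 : k = i₁
        · rw [hk1]; exact h4
        · exact h2 k hk0 hk1
  rw [Fintype.card_piFinset] at h1
  have h2 : ∏ k : Fin (N + 1), (if k = i₀ ∨ k = i₁ then ({0} : Finset (𝓞 K)) else G).card =
      G.card ^ (N - 1) := by
    have h3 : ∀ k : Fin (N + 1), (if k = i₀ ∨ k = i₁ then ({0} : Finset (𝓞 K)) else G).card =
        if k ∈ ({i₀, i₁} : Finset (Fin (N + 1))) then 1 else G.card := by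
      intro k
      by_cases hk : k = i₀ ∨ k = i₁
      · simp [hk]
      · simp [hk]
    rw [prod_congr rfl fun k _ => h3 k, ← Finset.prod_mul_prod_compl ({i₀, i₁} : Finset (Fin (N + 1)))]
    rw [prod_congr rfl fun k hk => if_pos hk, prod_congr rfl fun k hk => if_neg (mem_compl.1 hk),
      prod_const_one, one_mul, prod_const, card_compl, Fintype.card_fin, card_pair hne]
    congr 1
  rw [h2] at h1
  calc (F.card : ℝ) ≤ ((G.card ^ (N - 1) : ℕ) : ℝ) := by exact_mod_cast h1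
    _ = (G.card : ℝ) ^ (N - 1) := by push_cast; rfl
    _ ≤ C ^ (N - 1) := pow_le_pow_left₀ hC0 hGC _

/-! ### Tuples with the same point -/

lemma fibre {C : ℝ} (hC : ∀ G : Finset (𝓞 K),
    (∀ a ∈ G, ∀ w : InfinitePlace K, w (a : K) ≤ 2) → (G.card : ℝ) ≤ C)
    (F : Finset (Fin n → 𝓞 K)) (x₀ : Fin n → 𝓞 K) (i : Fin n) {R : ℝ} (hR : 0 < R)
    (h0 : ∀ w : InfinitePlace K, R / 2 ≤ w (x₀ i : K))
    (hu : ∀ v : Pr K, ∃ k, fv v (x₀ k : K) = 1)
    (hF : ∀ x ∈ F, (∀ w : InfinitePlace K, w (x i : K) ≤ R) ∧ ∀ k j, x k * x₀ j = x₀ k * x j) :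
    (F.card : ℝ) ≤ C := by
  classical
  -- the coordinates generate the unit ideal
  have hx0 : x₀ i ≠ 0 := by
    intro h
    obtain ⟨w⟩ : Nonempty (InfinitePlace K) := inferInstance
    have := h0 w
    rw [h] at this
    have h2 : w ((0 : 𝓞 K) : K) = 0 := by
      have : ((0 : 𝓞 K) : K) = 0 := map_zero _
      rw [this]
      exact w.1.map_zero
    rw [h2] at this
    linarith
  have htop : Ideal.span (Set.range x₀) = ⊤ := by
    by_contra hne
    obtain ⟨M, hM, hle⟩ := Ideal.exists_le_maximal _ hne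
    have hMb : M ≠ ⊥ := by
      intro hb
      have h1 : x₀ i ∈ M := hle (Ideal.subset_span ⟨i, rfl⟩)
      rw [hb, Ideal.mem_bot] at h1
      exact hx0 h1
    obtain ⟨k, hk⟩ := hu ⟨M, hM.isPrime, hMb⟩
    have h1 : x₀ k ∈ M := hle (Ideal.subset_span ⟨k, rfl⟩)
    have h2 := (fv_lt_one_iff (⟨M, hM.isPrime, hMb⟩ : Pr K) (s := x₀ k)).2 h1
    linarith
  have h1 : (1 : 𝓞 K) ∈ Ideal.span (Set.range x₀) := by rw [htop]; trivial
  rw [Ideal.mem_span_range_iff_exists_fun] at h1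
  obtain ⟨b, hb⟩ := h1
  set g : (Fin n → 𝓞 K) → 𝓞 K := fun x => ∑ k, b k * x k with hg
  have hgx : ∀ x ∈ F, ∀ j, g x * x₀ j = x j := by
    intro x hx j
    rw [hg]
    simp only
    rw [sum_mul]
    calc ∑ k, b k * x k * x₀ j = ∑ k, (b k * x₀ k) * x j := by
          refine sum_congr rfl fun k _ => ?_
          rw [mul_assoc, (hF x hx).2 k j, mul_assoc]
      _ = x j := by rw [← sum_mul, hb, one_mul]
  have hinj : Set.InjOn g F := by
    intro x hx y hy hxy
    funext j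
    rw [← hgx x hx j, ← hgx y hy j, hxy]
  rw [← card_image_of_injOn hinj]
  apply hC
  intro a ha w
  obtain ⟨x, hx, rfl⟩ := mem_image.1 ha
  have h2 : w (g x : K) * w (x₀ i : K) = w (x i : K) := by
    rw [← hgx x hx i]
    push_cast
    exact (w.1.map_mul _ _).symm
  have h3 := h0 w
  have h4 := (hF x hx).1 w
  have h5 : 0 ≤ w (g x : K) := apply_nonneg w _
  nlinarith

/-! ### The point of a tuple -/

lemma sup_one {x : Fin (N + 1) → 𝓞 K} {v : Pr K} (h : ∃ k, fv v (x k : K) = 1) :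
    (⨆ j, fv v (x j : K)) = 1 := by
  obtain ⟨k, hk⟩ := h
  apply le_antisymm
  · exact ciSup_le fun j => fv_int_le_one v _
  · rw [← hk]
    exact le_ciSup (f := fun j => fv v (x j : K)) (Set.finite_range _).bddAbove k

lemma height_le {x : Fin (N + 1) → 𝓞 K} (hz : (fun k => (x k : K)) ≠ 0)
    (hu : ∀ v : Pr K, ∃ k, fv v (x k : K) = 1) {B X : ℝ}
    (hB : ∀ k (w : InfinitePlace K), w (x k : K) ≤ B) (hX : B ^ Module.finrank ℚ K ≤ Real.exp X) :
    Height.logHeight (fun k => (x k : K)) ≤ X := by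
  have e1 : ∏ᶠ v : FinitePlace K, ⨆ i, v (x i : K) = 1 := by
    rw [← finprod_comp_equiv (FinitePlace.equivHeightOneSpectrum (K := K)).symm]
    exact (finprod_congr fun v => sup_one (hu v)).trans finprod_one
  have e2 : Height.mulHeight (fun k => (x k : K)) ≤ Real.exp X := by
    rw [NumberField.mulHeight_eq hz, e1, mul_one]
    refine le_trans ?_ hX
    rw [← bn_const (K := K)]
    unfold bn
    apply Finset.prod_le_prod
    · intro w _
      exact pow_nonneg (Real.iSup_nonneg fun i => apply_nonneg w _) _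
    · intro w _
      exact pow_le_pow_left₀ (Real.iSup_nonneg fun i => apply_nonneg w _)
        (ciSup_le fun i => hB i w) _
  rw [Height.logHeight_eq_log_mulHeight]
  exact (Real.log_le_iff_le_exp (Height.mulHeight_pos _)).2 e2

lemma point (h0 : S_BASN K) {x : Fin (N + 1) → 𝓞 K} (hN : 1 ≤ N) (hs : ∑ k, x k = 0)
    (hv : ∀ I : Finset (Fin (N + 1)), I.Nonempty → I ≠ univ → ∑ i ∈ I, x i ≠ 0)
    (hu : ∀ v : Pr K, ∃ k, fv v (x k : K) = 1) {B X : ℝ}
    (hB : ∀ k (w : InfinitePlace K), w (x k : K) ≤ B) (hX : B ^ Module.finrank ℚ K ≤ Real.exp X)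
    (hz : (fun k => (x k : K)) ≠ 0) :
    ∑ i, (Projectivization.mk K (fun k => (x k : K)) hz).rep i = 0 ∧
    (∀ i, (Projectivization.mk K (fun k => (x k : K)) hz).rep i ≠ 0) ∧
    NVK (Projectivization.mk K (fun k => (x k : K)) hz).rep ∧
    Height.logHeight (Projectivization.mk K (fun k => (x k : K)) hz).rep ≤ X ∧
    ∃ P, IsQ (Projectivization.mk K (fun k => (x k : K)) hz).rep P ∧
      tl P ≤ ((N + 1 : ℕ) : ℝ) * Height.logHeight (Projectivization.mk K (fun k => (x k : K)) hz).rep ∧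
      ∀ i v, fv v (x i : K) = (Nv v) ^ (-(P i v : ℤ)) := by
  obtain ⟨a, ha⟩ := Projectivization.exists_smul_eq_mk_rep K (fun k => (x k : K)) hz
  set ρ := (Projectivization.mk K (fun k => (x k : K)) hz).rep with hρ
  have hρi : ∀ i, ρ i = (a : K) * (x i : K) := by
    intro i
    rw [← ha]
    rfl
  have ha0 : (a : K) ≠ 0 := a.ne_zero
  have hsum : ∀ I : Finset (Fin (N + 1)), ∑ i ∈ I, ρ i = (a : K) * ((∑ i ∈ I, x i : 𝓞 K) : K) := by
    intro I
    rw [sum_congr rfl fun i _ => hρi i, ← mul_sum]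
    congr 1
    push_cast
    rfl
  have hne : ∀ I : Finset (Fin (N + 1)), I.Nonempty → I ≠ univ → ∑ i ∈ I, ρ i ≠ 0 := by
    intro I h1 h2 h3
    rw [hsum I] at h3
    rcases mul_eq_zero.1 h3 with h4 | h4
    · exact ha0 h4
    · exact hv I h1 h2 (RingOfIntegers.coe_eq_zero_iff.1 h4)
  have hsingle : ∀ i : Fin (N + 1), ({i} : Finset (Fin (N + 1))) ≠ univ := by
    intro i h
    have := congrArg Finset.card h
    rw [card_singleton, card_univ, Fintype.card_fin] at this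
    omega
  have hi0 : ∀ i, ρ i ≠ 0 := by
    intro i h
    exact hne {i} (singleton_nonempty i) (hsingle i) (by rw [sum_singleton]; exact h)
  have hxi : ∀ i, (x i : K) ≠ 0 := by
    intro i h
    exact hi0 i (by rw [hρi, h, mul_zero])
  have hlh : Height.logHeight ρ = Height.logHeight (fun k => (x k : K)) := by
    have h1 : ρ = (a : K) • (fun k => (x k : K)) := by
      funext i
      rw [hρi]
      rfl
    rw [h1]
    exact Height.logHeight_smul_eq_logHeight _ ha0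
  obtain ⟨P, hP1, hP2, _, _⟩ := h0 (N + 1) (fun k => (x k : K)) (by omega) hxi
  refine ⟨?_, hi0, hne, ?_, P, ?_, ?_, ?_⟩
  · rw [hsum univ, hs]
    simp
  · rw [hlh]
    exact height_le hz hu hB hX
  · intro i v
    rw [hρi, map_mul, hP1 i v]
    have h2 : (⨆ j, fv v (ρ j)) = fv v (a : K) * ⨆ j, fv v (x j : K) := by
      rw [Real.mul_iSup_of_nonneg ((fv v).nonneg _)]
      congr 1
      funext j
      rw [hρi, map_mul]
    rw [h2]
    ring
  · rw [hlh]
    exact hP2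
  · intro i v
    rw [hP1 i v, sup_one (hu v), one_mul]

/-! ### Counting with `BXU` -/

lemma cut {C : ℝ} (hU : ∀ (R : ℝ) (D : Fin (N + 1) → Idl K) (m : Idl K)
    (c : Fin (N + 1) → 𝓞 K) (F : Finset (Fin (N + 1) → 𝓞 K)), 1 ≤ R → (∀ v, ∃ i, D i v = 0) →
    (∀ v, m v = 0 ∨ ∀ k, D k v = 0) → tl D + len m ≤ Module.finrank ℚ K * Real.log R →
    (∀ x ∈ F, ∑ k, x k = 0 ∧ Dv D x ∧ Cg m c x ∧ ∀ k (w : InfinitePlace K), w (x k : K) ≤ (N + 1) * R) →
    (F.card : ℝ) ≤ C * Real.exp (N * (Module.finrank ℚ K * Real.log R) - tl D - N * len m))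
    {R : ℝ} {D : Fin (N + 1) → Idl K} (E : Fin (N + 1) → Idl K) {m : Idl K}
    {c : Fin (N + 1) → 𝓞 K} {F : Finset (Fin (N + 1) → 𝓞 K)} (hR : 1 ≤ R)
    (h1 : ∀ v, ∃ i, D i v = 0 ∧ E i v = 0) (h2 : ∀ v, m v = 0 ∨ ∀ k, D k v = 0 ∧ E k v = 0)
    (h3 : tl D + tl E + len m ≤ Module.finrank ℚ K * Real.log R)
    (hF : ∀ x ∈ F, ∑ k, x k = 0 ∧ Dv D x ∧ Cg m c x ∧
      ∀ k (w : InfinitePlace K), w (x k : K) ≤ (N + 1) * R)
    (hE : ∀ x ∈ F, ∀ k v, E k v ≠ 0 → fv v (x k : K) ≤ (Nv v) ^ (-((D k v + E k v : ℕ) : ℤ))) :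
    (F.card : ℝ) ≤ C * Real.exp (N * (Module.finrank ℚ K * Real.log R) - tl D - N * len m) *
      Real.exp (-tl E) := by
  have h4 := hU R (D + E) m c F hR (fun v => by
      obtain ⟨i, hi1, hi2⟩ := h1 v
      exact ⟨i, by rw [Pi.add_apply, Finsupp.add_apply, hi1, hi2]⟩)
    (fun v => (h2 v).imp id fun h k => by
      rw [Pi.add_apply, Finsupp.add_apply, (h k).1, (h k).2])
    (by rw [tl_add]; exact h3)
    (fun x hx => by
      obtain ⟨a1, a2, a3, a4⟩ := hF x hx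
      refine ⟨a1, fun k v => ?_, a3, a4⟩
      rw [Pi.add_apply, Finsupp.add_apply]
      by_cases hk : E k v = 0
      · rw [hk, add_zero]
        exact a2 k v
      · exact hE x hx k v hk)
  refine h4.trans (le_of_eq ?_)
  rw [tl_add, mul_assoc, ← Real.exp_add]
  congr 2
  ring

lemma card_ex {ι α : Type*} [DecidableEq α] (F : Finset α) (T : Finset ι) (p : ι → α → Prop)
    [∀ t x, Decidable (p t x)] [∀ x, Decidable (∃ t ∈ T, p t x)] (g : ι → ℝ)
    (h : ∀ t ∈ T, ((F.filter (p t)).card : ℝ) ≤ g t) :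
    ((F.filter (fun x => ∃ t ∈ T, p t x)).card : ℝ) ≤ ∑ t ∈ T, g t := by
  have h1 : F.filter (fun x => ∃ t ∈ T, p t x) ⊆ T.biUnion fun t => F.filter (p t) := by
    intro x hx
    rw [mem_filter] at hx
    obtain ⟨hx1, t, ht, hx2⟩ := hx
    rw [mem_biUnion]
    exact ⟨t, ht, mem_filter.2 ⟨hx1, hx2⟩⟩
  calc ((F.filter (fun x => ∃ t ∈ T, p t x)).card : ℝ)
      ≤ ((T.biUnion fun t => F.filter (p t)).card : ℝ) := by exact_mod_cast card_le_card h1
    _ ≤ ((∑ t ∈ T, (F.filter (p t)).card : ℕ) : ℝ) := by exact_mod_cast card_biUnion_le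
    _ = ∑ t ∈ T, ((F.filter (p t)).card : ℝ) := by push_cast; rfl
    _ ≤ ∑ t ∈ T, g t := sum_le_sum h

lemma fv_small {v : Pr K} {a : 𝓞 K} (h : fv v (a : K) ≠ 1) : fv v (a : K) ≤ (Nv v)⁻¹ := by
  have h1 : a ∈ v.asIdeal := by
    by_contra hc
    exact h (fv_eq_one_of_notMem v hc)
  have := (fv_le_pow_iff v a 1).2 (by simpa using h1)
  simpa using this

lemma zpow_le_iff (v : Pr K) (a b : ℕ) :
    (Nv v) ^ (-(a : ℤ)) ≤ (Nv v) ^ (-(b : ℤ)) ↔ b ≤ a := by
  rw [zpow_le_zpow_iff_right₀ (Nv1 v)]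
  omega

lemma exists_m (z : ℝ) : ∃ m : Idl K, ∀ v, m v = if Nv v ≤ z then 1 else 0 := by
  classical
  refine ⟨Finsupp.onFinset (PT K z) (fun v => if Nv v ≤ z then 1 else 0) ?_, fun v => rfl⟩
  intro v hv
  rw [mem_PT]
  by_contra h
  exact hv (if_neg h)

/-! ### Good tuples -/

/-- the conditions on the tuples which are kept -/
structure Gd (D : Fin (N + 1) → Idl K) (z₀ P₀ Y X : ℝ) (x : Fin (N + 1) → 𝓞 K) : Prop where
  q1 : ∀ i, ∀ v ∈ sp D, ¬ fv v (x i : K) ≤ (Nv v) ^ (-((D i v + 1 : ℕ) : ℤ))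
  q2 : ∀ i v, v ∉ sp D → z₀ < Nv v → Nv v ≤ Real.exp P₀ →
    ¬ fv v (x i : K) ≤ (Nv v) ^ (-((2 : ℕ) : ℤ))
  q3 : ∀ i j, i ≠ j → ∀ v, v ∉ sp D → z₀ < Nv v → Nv v ≤ Real.exp Y →
    ¬ (fv v (x i : K) ≤ (Nv v)⁻¹ ∧ fv v (x j : K) ≤ (Nv v)⁻¹)
  q4 : ∀ i j, i ≠ j → ∀ v, Real.exp Y < Nv v → Nv v ≤ Real.exp X →
    ¬ (fv v (x i : K) ≤ (Nv v)⁻¹ ∧ fv v (x j : K) ≤ (Nv v)⁻¹)
  q5 : ∀ I : Finset (Fin (N + 1)), I.Nonempty → I ≠ univ → ∑ i ∈ I, x i ≠ 0

lemma Gd.ne {D : Fin (N + 1) → Idl K} {z₀ P₀ Y X : ℝ} {x : Fin (N + 1) → 𝓞 K}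
    (h : Gd D z₀ P₀ Y X x) (hN : 1 ≤ N) (i : Fin (N + 1)) : x i ≠ 0 := by
  have hsingle : ({i} : Finset (Fin (N + 1))) ≠ univ := by
    intro h
    have := congrArg Finset.card h
    rw [card_singleton, card_univ, Fintype.card_fin] at this
    omega
  have := h.q5 {i} (singleton_nonempty i) hsingle
  rwa [sum_singleton] at this

/-- no two coordinates are divisible by a prime outside `sp D` -/
lemma Gd.two {D : Fin (N + 1) → Idl K} {z₀ P₀ Y X B : ℝ} {x : Fin (N + 1) → 𝓞 K}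
    (h : Gd D z₀ P₀ Y X x) (hN : 1 ≤ N) (hB : ∀ k (w : InfinitePlace K), w (x k : K) ≤ B)
    (hX : B ^ Module.finrank ℚ K = Real.exp X) {v : Pr K} (hv : v ∉ sp D) (hz : z₀ < Nv v)
    {i j : Fin (N + 1)} (hij : i ≠ j) :
    ¬ (fv v (x i : K) ≤ (Nv v)⁻¹ ∧ fv v (x j : K) ≤ (Nv v)⁻¹) := by
  rcases le_or_gt (Nv v) (Real.exp Y) with hY | hY
  · exact h.q3 i j hij v hv hz hY
  · intro h1
    refine h.q4 i j hij v hY ?_ h1
    rw [← hX]
    exact Nv_le_of_dvd (h.ne hN i) h1.1 (hB i)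

lemma Gd.unit {D : Fin (N + 1) → Idl K} {z₀ P₀ Y X B : ℝ} {x : Fin (N + 1) → 𝓞 K}
    (h : Gd D z₀ P₀ Y X x) (hN : 1 ≤ N) (hB : ∀ k (w : InfinitePlace K), w (x k : K) ≤ B)
    (hX : B ^ Module.finrank ℚ K = Real.exp X) {m : Idl K}
    (hm : ∀ v, m v = if Nv v ≤ z₀ then 1 else 0) {c : Fin (N + 1) → 𝓞 K} {i1 : Fin (N + 1)}
    (hc : c i1 = 1) (hCg : Cg m c x) (hD0 : ∀ v, ∃ k, D k v = 0) (v : Pr K) :
    ∃ k, fv v (x k : K) = 1 := by
  by_contra hcon
  push Not at hcon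
  have hsm : ∀ k, fv v (x k : K) ≤ (Nv v)⁻¹ := fun k => fv_small (hcon k)
  have hlt : (Nv v)⁻¹ < 1 := inv_lt_one_of_one_lt₀ (Nv1 v)
  rcases le_or_gt (Nv v) z₀ with hz | hz
  · have h1 := hCg i1 v
    rw [hm v, if_pos hz, hc] at h1
    have h2 : fv v ((x i1 : K) - ((1 : 𝓞 K) : K)) ≤ (Nv v)⁻¹ := by simpa using h1
    have h3 : fv v (((1 : 𝓞 K) : K)) ≤ (Nv v)⁻¹ := by
      have e : (((1 : 𝓞 K) : K)) = (x i1 : K) + -((x i1 : K) - ((1 : 𝓞 K) : K)) := by ring
      rw [e]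
      refine (fv_na v _ _).trans (max_le (hsm i1) ?_)
      rw [(fv v).map_neg]
      exact h2
    have h4 : fv v (((1 : 𝓞 K) : K)) = 1 := by
      have : (((1 : 𝓞 K) : K)) = 1 := map_one _
      rw [this, map_one]
    linarith
  · by_cases hv : v ∈ sp D
    · obtain ⟨k, hk⟩ := hD0 v
      have := h.q1 k v hv
      rw [hk] at this
      apply this
      simpa using hsm k
    · have h01 : (0 : Fin (N + 1)) ≠ Fin.last N := by
        intro h0
        have := congrArg Fin.val h0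
        simp at this
        omega
      exact h.two hN hB hX hv hz h01 ⟨hsm _, hsm _⟩

lemma Gd.exps {D : Fin (N + 1) → Idl K} {z₀ P₀ Y X B : ℝ} {x : Fin (N + 1) → 𝓞 K}
    (h : Gd D z₀ P₀ Y X x) (hN : 1 ≤ N) (hB : ∀ k (w : InfinitePlace K), w (x k : K) ≤ B)
    (hX : B ^ Module.finrank ℚ K = Real.exp X) (hDv : Dv D x) {P : Fin (N + 1) → Idl K}
    (hP : ∀ i v, fv v (x i : K) = (Nv v) ^ (-(P i v : ℤ))) :
    (∀ i, D i ≤ P i) ∧ ∀ v, z₀ < Nv v → Nv v ≤ Real.exp P₀ →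
      (v ∈ sp D → ∀ i, P i v = D i v) ∧ (v ∉ sp D → ∑ i, P i v ≤ 1) := by
  have hle : ∀ i v, D i v ≤ P i v := by
    intro i v
    have h1 := hDv i v
    rw [hP i v] at h1
    exact (zpow_le_iff v _ _).1 h1
  refine ⟨fun i => Finsupp.le_def.2 fun v => hle i v, fun v hz hv0 => ⟨fun hv i => ?_, fun hv => ?_⟩⟩
  · have h1 := h.q1 i v hv
    rw [hP i v, zpow_le_iff] at h1
    have := hle i v
    omega
  · have h2 : ∀ i, P i v < 2 := by
      intro i
      have h1 := h.q2 i v hv hz hv0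
      rw [hP i v, zpow_le_iff] at h1
      omega
    have h3 : ∀ i j, i ≠ j → P i v = 0 ∨ P j v = 0 := by
      intro i j hij
      by_contra hc
      push Not at hc
      apply h.two hN hB hX hv hz hij
      have e : ∀ k, P k v ≠ 0 → fv v (x k : K) ≤ (Nv v)⁻¹ := by
        intro k hk
        have h4 : (Nv v)⁻¹ = (Nv v) ^ (-((1 : ℕ) : ℤ)) := by simp
        rw [hP k v, h4, zpow_le_iff]
        omega
      exact ⟨e i hc.1, e j hc.2⟩
    by_cases hex : ∃ i, P i v ≠ 0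
    · obtain ⟨i, hi⟩ := hex
      rw [Finset.sum_eq_single i]
      · have := h2 i
        omega
      · intro j _ hj
        rcases h3 i j hj.symm with h4 | h4
        · exact absurd h4 hi
        · exact h4
      · intro h4
        exact absurd (mem_univ _) h4
    · push Not at hex
      rw [sum_eq_zero fun i _ => hex i]
      exact Nat.zero_le _

/-- the points of the good tuples -/
lemma points {C2 : ℝ} (hC2 : ∀ G : Finset (𝓞 K),
    (∀ a ∈ G, ∀ w : InfinitePlace K, w (a : K) ≤ 2) → (G.card : ℝ) ≤ C2) (h0 : S_BASN K)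
    (hN : 1 ≤ N) {D : Fin (N + 1) → Idl K} {z₀ P₀ Y X B R : ℝ} {i1 : Fin (N + 1)} (hR : 0 < R)
    (hX : B ^ Module.finrank ℚ K = Real.exp X) (F₁ : Finset (Fin (N + 1) → 𝓞 K))
    (hF : ∀ x ∈ F₁, ∑ k, x k = 0 ∧ Dv D x ∧ Gd D z₀ P₀ Y X x ∧
      (∀ v : Pr K, ∃ k, fv v (x k : K) = 1) ∧ (∀ k (w : InfinitePlace K), w (x k : K) ≤ B) ∧
      ∀ w : InfinitePlace K, R / 2 ≤ w (x i1 : K) ∧ w (x i1 : K) ≤ R) :
    ∃ F : Finset (Projectivization K (Fin (N + 1) → K)),
    (∀ p ∈ F, ∑ i, p.rep i = 0 ∧ (∀ i, p.rep i ≠ 0) ∧ NVK p.rep ∧ Height.logHeight p.rep ≤ X ∧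
      ∃ P, IsQ p.rep P ∧ (∀ i, D i ≤ P i) ∧ tl P ≤ ((N + 1 : ℕ) : ℝ) * Height.logHeight p.rep ∧
        ∀ v, z₀ < Nv v → Nv v ≤ Real.exp P₀ →
          (v ∈ sp D → ∀ i, P i v = D i v) ∧ (v ∉ sp D → ∑ i, P i v ≤ 1)) ∧
    (F₁.card : ℝ) ≤ C2 * F.card := by
  classical
  have hz : ∀ x ∈ F₁, (fun k => (x k : K)) ≠ 0 := by
    intro x hx h
    have h1 := (hF x hx).2.2.1.ne hN i1
    have h2 := congrFun h i1
    exact h1 (RingOfIntegers.coe_eq_zero_iff.1 h2)
  set f : {x // x ∈ F₁} → Projectivization K (Fin (N + 1) → K) := fun x =>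
    Projectivization.mk K (fun k => (x.1 k : K)) (hz x.1 x.2) with hf
  refine ⟨F₁.attach.image f, ?_, ?_⟩
  · intro p hp
    obtain ⟨x, _, rfl⟩ := mem_image.1 hp
    obtain ⟨a1, a2, a3, a4, a5, _⟩ := hF x.1 x.2
    obtain ⟨b1, b2, b3, b4, P, b5, b6, b7⟩ := point h0 hN a1 a3.q5 a4 a5 hX.le (hz x.1 x.2)
    obtain ⟨e1, e2⟩ := a3.exps hN a5 hX a2 b7
    exact ⟨b1, b2, b3, b4, P, b5, e1, b6, e2⟩
  · have hfib : ∀ p ∈ F₁.attach.image f, (F₁.attach.filter fun x => f x = p).card ≤ ⌊C2⌋₊ := by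
      intro p hp
      obtain ⟨x₀, _, rfl⟩ := mem_image.1 hp
      apply Nat.le_floor
      have e1 : ((F₁.attach.filter fun x => f x = f x₀).card : ℝ) =
          (((F₁.attach.filter fun x => f x = f x₀).image Subtype.val).card : ℝ) := by
        rw [card_image_of_injective _ Subtype.val_injective]
      rw [e1]
      apply fibre hC2 _ x₀.1 i1 hR (fun w => ((hF x₀.1 x₀.2).2.2.2.2.2 w).1)
        (hF x₀.1 x₀.2).2.2.2.1
      intro x hx
      obtain ⟨y, hy, rfl⟩ := mem_image.1 hx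
      rw [mem_filter] at hy
      refine ⟨fun w => ((hF y.1 y.2).2.2.2.2.2 w).2, fun k j => ?_⟩
      obtain ⟨a, ha⟩ := (Projectivization.mk_eq_mk_iff' K _ _ (hz y.1 y.2) (hz x₀.1 x₀.2)).1 hy.2
      have h1 : ∀ l, a * (x₀.1 l : K) = (y.1 l : K) := fun l => congrFun ha l
      have e2 : (y.1 k : K) * (x₀.1 j : K) = (x₀.1 k : K) * (y.1 j : K) := by
        rw [← h1 k, ← h1 j]
        ring
      apply RingOfIntegers.ext
      push_cast
      exact e2
    have h1 := card_le_mul_card_image F₁.attach ⌊C2⌋₊ hfib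
    rw [card_attach] at h1
    have hC20 : 0 ≤ C2 := by
      have := hC2 ∅ (by simp)
      simpa using this
    calc (F₁.card : ℝ) ≤ ((⌊C2⌋₊ * (F₁.attach.image f).card : ℕ) : ℝ) := by exact_mod_cast h1
      _ = (⌊C2⌋₊ : ℝ) * (F₁.attach.image f).card := by push_cast; rfl
      _ ≤ C2 * (F₁.attach.image f).card :=
        mul_le_mul_of_nonneg_right (Nat.floor_le hC20) (Nat.cast_nonneg _)

end Basic

section Count

variable {K : Type} [Field K] [NumberField K] {n N : ℕ}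

/-! ### The counting step -/

open Classical in
lemma single_ap (i k : Fin n) (v u : Pr K) (e : ℕ) :
    (Pi.single i (Finsupp.single v e) : Fin n → Idl K) k u = if k = i ∧ u = v then e else 0 := by
  classical
  by_cases hk : k = i
  · subst hk
    rw [Pi.single_eq_same]
    by_cases hu : u = v
    · subst hu
      rw [Finsupp.single_eq_same]
      simp
    · rw [Finsupp.single_eq_of_ne hu]
      simp [hu]
  · rw [Pi.single_eq_of_ne hk]
    simp [hk]

/-- the bound of `S_BXU` -/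
def UB (K : Type) [Field K] [NumberField K] (N : ℕ) (C : ℝ) : Prop :=
  ∀ (R : ℝ) (D : Fin (N + 1) → Idl K) (m : Idl K)
    (c : Fin (N + 1) → 𝓞 K) (F : Finset (Fin (N + 1) → 𝓞 K)), 1 ≤ R → (∀ v, ∃ i, D i v = 0) →
    (∀ v, m v = 0 ∨ ∀ k, D k v = 0) → tl D + len m ≤ Module.finrank ℚ K * Real.log R →
    (∀ x ∈ F, ∑ k, x k = 0 ∧ Dv D x ∧ Cg m c x ∧ ∀ k (w : InfinitePlace K), w (x k : K) ≤ (N + 1) * R) →
    (F.card : ℝ) ≤ C * Real.exp (N * (Module.finrank ℚ K * Real.log R) - tl D - N * len m)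

/-- the situation in the counting step -/
structure St (D : Fin (N + 1) → Idl K) (m : Idl K) (c : Fin (N + 1) → 𝓞 K) (R z₀ : ℝ)
    (F : Finset (Fin (N + 1) → 𝓞 K)) : Prop where
  hR : 1 ≤ R
  hD : ∀ v i, ∃ k, k ≠ i ∧ D k v = 0
  hm : ∀ v, m v = if Nv v ≤ z₀ then 1 else 0
  hz : ∀ v ∈ sp D, z₀ < Nv v
  hF : ∀ x ∈ F, ∑ k, x k = 0 ∧ Dv D x ∧ Cg m c x ∧
    ∀ k (w : InfinitePlace K), w (x k : K) ≤ (N + 1) * R

lemma St.cut1 {D : Fin (N + 1) → Idl K} {m : Idl K} {c : Fin (N + 1) → 𝓞 K} {R z₀ : ℝ}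
    {F : Finset (Fin (N + 1) → 𝓞 K)} (h : St D m c R z₀ F) {C : ℝ} (hU : UB K N C)
    (E : Fin (N + 1) → Idl K) {v : Pr K} (hv : z₀ < Nv v) (hE0 : ∀ k u, u ≠ v → E k u = 0)
    (hEv : ∃ k, D k v = 0 ∧ E k v = 0)
    (hsz : tl D + tl E + len m ≤ Module.finrank ℚ K * Real.log R)
    (G : Finset (Fin (N + 1) → 𝓞 K)) (hGF : G ⊆ F)
    (hG : ∀ x ∈ G, ∀ k, E k v ≠ 0 → fv v (x k : K) ≤ (Nv v) ^ (-((D k v + E k v : ℕ) : ℤ))) :
    (G.card : ℝ) ≤ C * Real.exp (N * (Module.finrank ℚ K * Real.log R) - tl D - N * len m) *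
      Real.exp (-tl E) := by
  apply cut (c := c) hU E h.hR _ _ hsz (fun x hx => h.hF x (hGF hx))
  · intro x hx k u hu
    have huv : u = v := by
      by_contra hc
      exact hu (hE0 k u hc)
    subst huv
    exact hG x hx k hu
  · intro u
    by_cases huv : u = v
    · subst huv
      exact hEv
    · obtain ⟨k, _, hk⟩ := h.hD u 0
      exact ⟨k, hk, hE0 k u huv⟩
  · intro u
    by_cases hu : Nv u ≤ z₀
    · right
      intro k
      have h1 : u ≠ v := by
        intro h2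
        rw [h2] at hu
        linarith
      refine ⟨?_, hE0 k u h1⟩
      by_contra h2
      have := h.hz u (mem_sp.2 ⟨k, h2⟩)
      linarith
    · left
      rw [h.hm u, if_neg hu]

/-- the subsets of `F` with the property `p` have at most `a` elements -/
def Bd {α : Type*} (F : Finset α) (p : α → Prop) (a : ℝ) : Prop :=
  ∀ G ⊆ F, (∀ x ∈ G, p x) → (G.card : ℝ) ≤ a

lemma Bd.mono {α : Type*} {F : Finset α} {p q : α → Prop} {a b : ℝ} (h : Bd F p a)
    (hpq : ∀ x ∈ F, q x → p x) (hab : a ≤ b) : Bd F q b :=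
  fun G hG hq => (h G hG fun x hx => hpq x (hG hx) (hq x hx)).trans hab

lemma Bd.or {α : Type*} {F : Finset α} {p q : α → Prop} {a b : ℝ} (h : Bd F p a)
    (h' : Bd F q b) : Bd F (fun x => p x ∨ q x) (a + b) := by
  classical
  intro G hG hx
  have h1 := h (G.filter p) ((filter_subset _ _).trans hG) fun x hx => (mem_filter.1 hx).2
  have h2 := h' (G.filter fun x => ¬ p x) ((filter_subset _ _).trans hG) fun x hx' =>
    ((hx x (mem_filter.1 hx').1).resolve_left (mem_filter.1 hx').2)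
  have h3 : (G.card : ℝ) = (G.filter p).card + (G.filter fun x => ¬ p x).card := by
    rw [← Nat.cast_add, card_filter_add_card_filter_not]
  linarith

lemma Bd.ex {ι α : Type*} {F : Finset α} {T : Finset ι} {p : ι → α → Prop} {g : ι → ℝ}
    (h : ∀ t ∈ T, Bd F (p t) (g t)) : Bd F (fun x => ∃ t ∈ T, p t x) (∑ t ∈ T, g t) := by
  classical
  intro G hG hx
  have h1 : G ⊆ T.biUnion fun t => G.filter (p t) := by
    intro x hxG
    obtain ⟨t, ht, hxt⟩ := hx x hxG
    exact mem_biUnion.2 ⟨t, ht, mem_filter.2 ⟨hxG, hxt⟩⟩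
  calc (G.card : ℝ) ≤ ((T.biUnion fun t => G.filter (p t)).card : ℝ) := by
        exact_mod_cast card_le_card h1
    _ ≤ ((∑ t ∈ T, (G.filter (p t)).card : ℕ) : ℝ) := by exact_mod_cast card_biUnion_le
    _ = ∑ t ∈ T, ((G.filter (p t)).card : ℝ) := by push_cast; rfl
    _ ≤ ∑ t ∈ T, g t := sum_le_sum fun t ht =>
        h t ht _ ((filter_subset _ _).trans hG) fun x hx => (mem_filter.1 hx).2

lemma Bd.ex2 {ι α : Type*} [Fintype ι] {F : Finset α} {S : Finset (Pr K)}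
    {p : ι → Pr K → α → Prop} {g : Pr K → ℝ} (h : ∀ i, ∀ v ∈ S, Bd F (p i v) (g v)) :
    Bd F (fun x => ∃ i, ∃ v ∈ S, p i v x) (Fintype.card ι * ∑ v ∈ S, g v) := by
  have h1 := Bd.ex (F := F) (T := (univ : Finset ι) ×ˢ S) (p := fun t x => p t.1 t.2 x)
    (g := fun t => g t.2) (by
    intro t ht
    rw [mem_product] at ht
    exact h t.1 t.2 ht.2)
  have h2 : ∑ t ∈ (univ : Finset ι) ×ˢ S, g t.2 = Fintype.card ι * ∑ v ∈ S, g v := by
    rw [sum_product]
    show ∑ _x : ι, ∑ y ∈ S, g y = _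
    rw [sum_const, card_univ, nsmul_eq_mul]
  apply h1.mono _ h2.le
  rintro x _ ⟨i, v, hv, hp⟩
  exact ⟨(i, v), mem_product.2 ⟨mem_univ _, hv⟩, hp⟩

lemma St.b1 {D : Fin (N + 1) → Idl K} {m : Idl K} {c : Fin (N + 1) → 𝓞 K} {R z₀ : ℝ}
    {F : Finset (Fin (N + 1) → 𝓞 K)} (h : St D m c R z₀ F) {C : ℝ} (hU : UB K N C)
    {v : Pr K} (hv : v ∈ sp D) (i : Fin (N + 1))
    (hsz : tl D + Real.log (Nv v) + len m ≤ Module.finrank ℚ K * Real.log R) :
    Bd F (fun x => fv v (x i : K) ≤ (Nv v) ^ (-((D i v + 1 : ℕ) : ℤ)))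
      (C * Real.exp (N * (Module.finrank ℚ K * Real.log R) - tl D - N * len m) * (Nv v)⁻¹) := by
  intro G hG hGx
  have htl : tl (Pi.single i (Finsupp.single v 1) : Fin (N + 1) → Idl K) = Real.log (Nv v) := by
    rw [tl_single, len_single, Nat.cast_one, one_mul]
  rw [← exp_log_Nv, ← htl]
  apply h.cut1 hU (Pi.single i (Finsupp.single v 1)) (h.hz v hv)
  · intro k u hu
    rw [single_ap]
    simp [hu]
  · obtain ⟨k, hki, hk⟩ := h.hD v i
    refine ⟨k, hk, ?_⟩
    rw [single_ap]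
    simp [hki]
  · rw [htl]
    exact hsz
  · exact hG
  · intro x hx k hk
    rw [single_ap] at hk ⊢
    by_cases hki : k = i
    · subst hki
      simpa using hGx x hx
    · exfalso
      apply hk
      simp [hki]

lemma St.b2 {D : Fin (N + 1) → Idl K} {m : Idl K} {c : Fin (N + 1) → 𝓞 K} {R z₀ : ℝ}
    {F : Finset (Fin (N + 1) → 𝓞 K)} (h : St D m c R z₀ F) {C : ℝ} (hU : UB K N C)
    {v : Pr K} (hv : v ∉ sp D) (hz : z₀ < Nv v) (i : Fin (N + 1))
    (hsz : tl D + 2 * Real.log (Nv v) + len m ≤ Module.finrank ℚ K * Real.log R) :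
    Bd F (fun x => fv v (x i : K) ≤ (Nv v) ^ (-((2 : ℕ) : ℤ)))
      (C * Real.exp (N * (Module.finrank ℚ K * Real.log R) - tl D - N * len m) *
        ((Nv v) ^ 2)⁻¹) := by
  intro G hG hGx
  have htl : tl (Pi.single i (Finsupp.single v 2) : Fin (N + 1) → Idl K) = 2 * Real.log (Nv v) := by
    rw [tl_single, len_single]
    norm_num
  have hD0 : ∀ k, D k v = 0 := by
    intro k
    by_contra hc
    exact hv (mem_sp.2 ⟨k, hc⟩)
  have e1 : ((Nv v) ^ 2)⁻¹ = Real.exp (-(2 * Real.log (Nv v))) := by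
    have : -(2 * Real.log (Nv v)) = -Real.log (Nv v) + -Real.log (Nv v) := by ring
    rw [this, Real.exp_add, exp_log_Nv, pow_two, mul_inv]
  rw [e1, ← htl]
  apply h.cut1 hU (Pi.single i (Finsupp.single v 2)) hz
  · intro k u hu
    rw [single_ap]
    simp [hu]
  · obtain ⟨k, hki, hk⟩ := h.hD v i
    refine ⟨k, hk, ?_⟩
    rw [single_ap]
    simp [hki]
  · rw [htl]
    exact hsz
  · exact hG
  · intro x hx k hk
    rw [single_ap] at hk ⊢
    by_cases hki : k = i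
    · subst hki
      rw [hD0]
      simpa using hGx x hx
    · exfalso
      apply hk
      simp [hki]

lemma St.b3 (hN : 2 ≤ N) {D : Fin (N + 1) → Idl K} {m : Idl K} {c : Fin (N + 1) → 𝓞 K} {R z₀ : ℝ}
    {F : Finset (Fin (N + 1) → 𝓞 K)} (h : St D m c R z₀ F) {C : ℝ} (hU : UB K N C)
    {v : Pr K} (hv : v ∉ sp D) (hz : z₀ < Nv v) {i j : Fin (N + 1)} (hij : i ≠ j)
    (hsz : tl D + 2 * Real.log (Nv v) + len m ≤ Module.finrank ℚ K * Real.log R) :
    Bd F (fun x => fv v (x i : K) ≤ (Nv v)⁻¹ ∧ fv v (x j : K) ≤ (Nv v)⁻¹)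
      (C * Real.exp (N * (Module.finrank ℚ K * Real.log R) - tl D - N * len m) *
        ((Nv v) ^ 2)⁻¹) := by
  intro G hG hGx
  set E : Fin (N + 1) → Idl K := Pi.single i (Finsupp.single v 1) + Pi.single j (Finsupp.single v 1)
    with hE
  have htl : tl E = 2 * Real.log (Nv v) := by
    rw [hE, tl_add, tl_single, tl_single, len_single, Nat.cast_one, one_mul, two_mul]
  classical
  have hap : ∀ k u, E k u = (if k = i ∧ u = v then 1 else 0) + if k = j ∧ u = v then 1 else 0 := by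
    intro k u
    rw [hE, Pi.add_apply, Finsupp.add_apply, single_ap, single_ap]
  have hD0 : ∀ k, D k v = 0 := by
    intro k
    by_contra hc
    exact hv (mem_sp.2 ⟨k, hc⟩)
  obtain ⟨k₀, hk₀⟩ : ∃ k, k ∉ ({i, j} : Finset (Fin (N + 1))) := by
    by_contra hcon
    push Not at hcon
    have h3 : (univ : Finset (Fin (N + 1))) ⊆ {i, j} := fun k _ => hcon k
    have h4 := card_le_card h3
    rw [card_univ, Fintype.card_fin] at h4
    have h5 : ({i, j} : Finset (Fin (N + 1))).card ≤ 2 := card_le_two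
    omega
  rw [mem_insert, mem_singleton, not_or] at hk₀
  have e1 : ((Nv v) ^ 2)⁻¹ = Real.exp (-(2 * Real.log (Nv v))) := by
    have : -(2 * Real.log (Nv v)) = -Real.log (Nv v) + -Real.log (Nv v) := by ring
    rw [this, Real.exp_add, exp_log_Nv, pow_two, mul_inv]
  rw [e1, ← htl]
  apply h.cut1 hU E hz
  · intro k u hu
    rw [hap]
    simp [hu]
  · refine ⟨k₀, hD0 k₀, ?_⟩
    rw [hap]
    simp [hk₀.1, hk₀.2]
  · rw [htl]
    exact hsz
  · exact hG
  · intro x hx k hk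
    have hx2 := hGx x hx
    rw [hD0, zero_add]
    rw [hap] at hk ⊢
    by_cases hki : k = i
    · subst hki
      simpa [hij] using hx2.1
    · by_cases hkj : k = j
      · subst hkj
        simpa [hki] using hx2.2
      · exfalso
        apply hk
        simp [hki, hkj]

lemma Gd_of {D : Fin (N + 1) → Idl K} {z₀ P₀ Y X : ℝ} {x : Fin (N + 1) → 𝓞 K}
    (h : ¬ Gd D z₀ P₀ Y X x) :
    (∃ i, ∃ v ∈ sp D, fv v (x i : K) ≤ (Nv v) ^ (-((D i v + 1 : ℕ) : ℤ))) ∨
    (∃ i v, v ∉ sp D ∧ z₀ < Nv v ∧ Nv v ≤ Real.exp P₀ ∧ fv v (x i : K) ≤ (Nv v) ^ (-((2 : ℕ) : ℤ))) ∨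
    (∃ i j, i ≠ j ∧ ∃ v, v ∉ sp D ∧ z₀ < Nv v ∧ Nv v ≤ Real.exp Y ∧
      fv v (x i : K) ≤ (Nv v)⁻¹ ∧ fv v (x j : K) ≤ (Nv v)⁻¹) ∨
    (∃ i j, i ≠ j ∧ ∃ v, Real.exp Y < Nv v ∧ Nv v ≤ Real.exp X ∧
      fv v (x i : K) ≤ (Nv v)⁻¹ ∧ fv v (x j : K) ≤ (Nv v)⁻¹) ∨
    ∃ I : Finset (Fin (N + 1)), I.Nonempty ∧ I ≠ univ ∧ ∑ i ∈ I, x i = 0 := by
  by_contra hc
  rw [not_or, not_or, not_or, not_or] at hc
  obtain ⟨c1, c2, c3, c4, c5⟩ := hc
  apply h
  refine ⟨?_, ?_, ?_, ?_, ?_⟩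
  · intro i v hv h1
    exact c1 ⟨i, v, hv, h1⟩
  · intro i v h1 h2 h3 h4
    exact c2 ⟨i, v, h1, h2, h3, h4⟩
  · intro i j hij v h1 h2 h3 h4
    exact c3 ⟨i, j, hij, v, h1, h2, h3, h4⟩
  · intro i j hij v h1 h2 h3
    exact c4 ⟨i, j, hij, v, h1, h2, h3⟩
  · intro I h1 h2 h3
    exact c5 ⟨I, h1, h2, h3⟩

/-- all bad tuples -/
lemma St.bad (hN : 2 ≤ N) {D : Fin (N + 1) → Idl K} {m : Idl K} {c : Fin (N + 1) → 𝓞 K}
    {R z₀ : ℝ} {F : Finset (Fin (N + 1) → 𝓞 K)} (h : St D m c R z₀ F) {C CB C1 Cp P₀ X Y B : ℝ}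
    (hU : UB K N C) (hC : 0 < C) (hCB0 : 0 < CB)
    (hCB : ∀ (B : ℝ) (v : Pr K) (i j : Fin (N + 1)) (F : Finset (Fin (N + 1) → 𝓞 K)), 0 < B →
      Nv v ≤ B ^ Module.finrank ℚ K → i ≠ j →
      (∀ x ∈ F, ∑ k, x k = 0 ∧ fv v (x i : K) ≤ (Nv v)⁻¹ ∧ fv v (x j : K) ≤ (Nv v)⁻¹ ∧
        ∀ k (w : InfinitePlace K), w (x k : K) ≤ B) →
      (F.card : ℝ) ≤ CB * (B ^ Module.finrank ℚ K) ^ N * ((Nv v) ^ 2)⁻¹)
    (hC1 : ∀ G : Finset (𝓞 K), (∀ a ∈ G, ∀ w : InfinitePlace K, w (a : K) ≤ B) →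
      (G.card : ℝ) ≤ C1)
    (hCp : ∀ (V : ℝ) (s : Finset (Pr K)), 1 ≤ V → (∀ v ∈ s, V < Nv v) →
      ∑ v ∈ s, ((Nv v) ^ 2)⁻¹ ≤ Cp / V)
    (hB : B = (N + 1) * R) (hX : B ^ Module.finrank ℚ K = Real.exp X) (hz₀ : 1 ≤ z₀)
    (hY : 0 ≤ Y) (hP₀ : 0 ≤ P₀) (hsp : ∀ v ∈ sp D, Nv v ≤ Real.exp P₀)
    (h1 : tl D + 2 * P₀ + len m ≤ Module.finrank ℚ K * Real.log R)
    (h2 : tl D + 2 * Y + len m ≤ Module.finrank ℚ K * Real.log R) :
    Bd F (fun x => ¬ Gd D z₀ P₀ Y X x)
      ((N + 1) * (C * Real.exp (N * (Module.finrank ℚ K * Real.log R) - tl D - N * len m) * rs D) +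
      ((N + 1) * (C * Real.exp (N * (Module.finrank ℚ K * Real.log R) - tl D - N * len m) *
        (Cp / z₀)) +
      ((N + 1) ^ 2 * (C * Real.exp (N * (Module.finrank ℚ K * Real.log R) - tl D - N * len m) *
        (Cp / z₀)) +
      ((N + 1) ^ 2 * (CB * Real.exp X ^ N * (Cp / Real.exp Y)) +
      2 ^ (N + 1) * C1 ^ (N - 1))))) := by
  classical
  set Z : ℝ := Real.exp (N * (Module.finrank ℚ K * Real.log R) - tl D - N * len m) with hZ
  have hZ0 : 0 < Z := Real.exp_pos _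
  have hN0 : (0 : ℝ) ≤ N := Nat.cast_nonneg _
  have hB0 : 0 < B := by
    rw [hB]
    have := h.hR
    positivity
  have hF0 : ∀ x ∈ F, x ∈ F := fun x hx => hx
  -- the five sets
  have t1 : Bd F (fun x => ∃ i, ∃ v ∈ sp D, fv v (x i : K) ≤ (Nv v) ^ (-((D i v + 1 : ℕ) : ℤ)))
      ((N + 1) * (C * Z * rs D)) := by
    have e1 := Bd.ex2 (F := F) (S := sp D) (p := fun (i : Fin (N + 1)) v x =>
      fv v (x i : K) ≤ (Nv v) ^ (-((D i v + 1 : ℕ) : ℤ))) (g := fun v => C * Z * (Nv v)⁻¹) (by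
        intro i v hv
        apply h.b1 hU hv i
        have : Real.log (Nv v) ≤ P₀ := (Real.log_le_iff_le_exp (Nv0 v)).2 (hsp v hv)
        linarith)
    refine e1.mono (fun x _ hx => hx) (le_of_eq ?_)
    rw [← mul_sum, Fintype.card_fin, rs]
    push_cast
    ring
  have t2 : Bd F (fun x => ∃ i, ∃ v ∈ (PT K (Real.exp P₀)).filter
      (fun v => z₀ < Nv v ∧ v ∉ sp D), fv v (x i : K) ≤ (Nv v) ^ (-((2 : ℕ) : ℤ)))
      ((N + 1) * (C * Z * (Cp / z₀))) := by
    have e1 := Bd.ex2 (F := F) (S := (PT K (Real.exp P₀)).filter (fun v => z₀ < Nv v ∧ v ∉ sp D))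
      (p := fun (i : Fin (N + 1)) v x => fv v (x i : K) ≤ (Nv v) ^ (-((2 : ℕ) : ℤ)))
      (g := fun v => C * Z * ((Nv v) ^ 2)⁻¹) (by
        intro i v hv
        rw [mem_filter, mem_PT] at hv
        apply h.b2 hU hv.2.2 hv.2.1 i
        have : Real.log (Nv v) ≤ P₀ := (Real.log_le_iff_le_exp (Nv0 v)).2 hv.1
        linarith)
    refine e1.mono (fun x _ hx => hx) ?_
    rw [← mul_sum, Fintype.card_fin]
    push_cast
    have e2 := hCp z₀ ((PT K (Real.exp P₀)).filter (fun v => z₀ < Nv v ∧ v ∉ sp D)) hz₀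
      (fun v hv => (mem_filter.1 hv).2.1)
    apply mul_le_mul_of_nonneg_left _ (by positivity)
    exact mul_le_mul_of_nonneg_left e2 (by positivity)
  have t3 : Bd F (fun x => ∃ ij : Fin (N + 1) × Fin (N + 1), ∃ v ∈ (PT K (Real.exp Y)).filter
      (fun v => z₀ < Nv v ∧ v ∉ sp D), ij.1 ≠ ij.2 ∧ fv v (x ij.1 : K) ≤ (Nv v)⁻¹ ∧
        fv v (x ij.2 : K) ≤ (Nv v)⁻¹)
      ((N + 1) ^ 2 * (C * Z * (Cp / z₀))) := by
    have e1 := Bd.ex2 (F := F) (S := (PT K (Real.exp Y)).filter (fun v => z₀ < Nv v ∧ v ∉ sp D))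
      (p := fun (ij : Fin (N + 1) × Fin (N + 1)) v x => ij.1 ≠ ij.2 ∧
        fv v (x ij.1 : K) ≤ (Nv v)⁻¹ ∧ fv v (x ij.2 : K) ≤ (Nv v)⁻¹)
      (g := fun v => C * Z * ((Nv v) ^ 2)⁻¹) (by
        intro ij v hv
        rw [mem_filter, mem_PT] at hv
        by_cases hij : ij.1 = ij.2
        · intro G _ hG
          have : G = ∅ := by
            rw [eq_empty_iff_forall_notMem]
            intro x hx
            exact (hG x hx).1 hij
          rw [this, card_empty, Nat.cast_zero]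
          have := Nv0 v
          positivity
        · refine Bd.mono (h.b3 hN hU hv.2.2 hv.2.1 hij ?_) (fun x _ hx => hx.2) le_rfl
          have : Real.log (Nv v) ≤ Y := (Real.log_le_iff_le_exp (Nv0 v)).2 hv.1
          linarith)
    refine e1.mono (fun x _ hx => hx) ?_
    rw [← mul_sum, Fintype.card_prod, Fintype.card_fin]
    push_cast
    have e2 := hCp z₀ ((PT K (Real.exp Y)).filter (fun v => z₀ < Nv v ∧ v ∉ sp D)) hz₀
      (fun v hv => (mem_filter.1 hv).2.1)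
    rw [pow_two]
    apply mul_le_mul_of_nonneg_left _ (by positivity)
    exact mul_le_mul_of_nonneg_left e2 (by positivity)
  have t4 : Bd F (fun x => ∃ ij : Fin (N + 1) × Fin (N + 1), ∃ v ∈ (PT K (Real.exp X)).filter
      (fun v => Real.exp Y < Nv v), ij.1 ≠ ij.2 ∧ fv v (x ij.1 : K) ≤ (Nv v)⁻¹ ∧
        fv v (x ij.2 : K) ≤ (Nv v)⁻¹)
      ((N + 1) ^ 2 * (CB * Real.exp X ^ N * (Cp / Real.exp Y))) := by
    have e1 := Bd.ex2 (F := F) (S := (PT K (Real.exp X)).filter (fun v => Real.exp Y < Nv v))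
      (p := fun (ij : Fin (N + 1) × Fin (N + 1)) v x => ij.1 ≠ ij.2 ∧
        fv v (x ij.1 : K) ≤ (Nv v)⁻¹ ∧ fv v (x ij.2 : K) ≤ (Nv v)⁻¹)
      (g := fun v => CB * Real.exp X ^ N * ((Nv v) ^ 2)⁻¹) (by
        intro ij v hv
        rw [mem_filter, mem_PT] at hv
        intro G hGF hG
        by_cases hij : ij.1 = ij.2
        · have : G = ∅ := by
            rw [eq_empty_iff_forall_notMem]
            intro x hx
            exact (hG x hx).1 hij
          rw [this, card_empty, Nat.cast_zero]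
          have := Nv0 v
          positivity
        · have e3 := hCB B v ij.1 ij.2 G hB0 (by rw [hX]; exact hv.1) hij (by
            intro x hx
            obtain ⟨a1, a2, a3, a4⟩ := h.hF x (hGF hx)
            exact ⟨a1, (hG x hx).2.1, (hG x hx).2.2, by rw [hB]; exact a4⟩)
          rw [hX] at e3
          exact e3)
    refine e1.mono (fun x _ hx => hx) ?_
    rw [← mul_sum, Fintype.card_prod, Fintype.card_fin]
    push_cast
    have e2 := hCp (Real.exp Y) ((PT K (Real.exp X)).filter (fun v => Real.exp Y < Nv v))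
      (Real.one_le_exp hY) (fun v hv => (mem_filter.1 hv).2)
    rw [pow_two]
    apply mul_le_mul_of_nonneg_left _ (by positivity)
    exact mul_le_mul_of_nonneg_left e2 (by positivity)
  have hC10 : 0 ≤ C1 := by
    have := hC1 ∅ (by simp)
    simpa using this
  have t5 : Bd F (fun x => ∃ I ∈ (univ : Finset (Finset (Fin (N + 1)))).filter
      (fun I => I.Nonempty ∧ I ≠ univ), ∑ i ∈ I, x i = 0) (2 ^ (N + 1) * C1 ^ (N - 1)) := by
    have e1 := Bd.ex (F := F) (T := (univ : Finset (Finset (Fin (N + 1)))).filter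
      (fun I => I.Nonempty ∧ I ≠ univ)) (p := fun I x => ∑ i ∈ I, x i = 0)
      (g := fun _ => C1 ^ (N - 1)) (by
        intro I hI
        rw [mem_filter] at hI
        intro G hGF hG
        apply van (B := B) hC1 G _ hI.2.1 hI.2.2 hG
        intro x hx
        obtain ⟨a1, a2, a3, a4⟩ := h.hF x (hGF hx)
        exact ⟨a1, by rw [hB]; exact a4⟩)
    refine e1.mono (fun x _ hx => hx) ?_
    rw [sum_const, nsmul_eq_mul]
    apply mul_le_mul_of_nonneg_right _ (by positivity)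
    have e2 : ((univ : Finset (Finset (Fin (N + 1)))).filter
      (fun I => I.Nonempty ∧ I ≠ univ)).card ≤ 2 ^ (N + 1) := by
      refine (card_filter_le _ _).trans ?_
      rw [card_univ, Fintype.card_finset, Fintype.card_fin]
    exact_mod_cast e2
  -- the union
  refine (t1.or (t2.or (t3.or (t4.or t5)))).mono ?_ le_rfl
  intro x _ hx
  rcases Gd_of hx with h1 | ⟨i, v, a1, a2, a3, a4⟩ | ⟨i, j, hij, v, a1, a2, a3, a4⟩ |
    ⟨i, j, hij, v, a1, a2, a3⟩ | ⟨I, a1, a2, a3⟩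
  · exact Or.inl h1
  · exact Or.inr (Or.inl ⟨i, v, mem_filter.2 ⟨mem_PT.2 a3, a2, a1⟩, a4⟩)
  · exact Or.inr (Or.inr (Or.inl ⟨(i, j), v, mem_filter.2 ⟨mem_PT.2 a3, a2, a1⟩, hij, a4⟩))
  · exact Or.inr (Or.inr (Or.inr (Or.inl
      ⟨(i, j), v, mem_filter.2 ⟨mem_PT.2 a2, a1⟩, hij, a3⟩)))
  · exact Or.inr (Or.inr (Or.inr (Or.inr
      ⟨I, mem_filter.2 ⟨mem_univ _, a1, a2⟩, a3⟩)))

/-- all coordinates of the tuples of `S_BXL` are small -/
lemma all_le {x : Fin (N + 1) → 𝓞 K} {R : ℝ} (hR : 0 ≤ R) (hs : ∑ k, x k = 0)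
    (hx : ∀ k, k ≠ 0 → ∀ w : InfinitePlace K, w (x k : K) ≤ R) (k : Fin (N + 1))
    (w : InfinitePlace K) : w (x k : K) ≤ (N + 1) * R := by
  classical
  have hN0 : (0 : ℝ) ≤ N := Nat.cast_nonneg _
  by_cases hk : k = 0
  · subst hk
    have e1 : (x 0 : K) = -∑ k ∈ univ.erase (0 : Fin (N + 1)), (x k : K) := by
      have e2 : x 0 + ∑ k ∈ univ.erase (0 : Fin (N + 1)), x k = 0 := by
        rw [Finset.add_sum_erase univ x (mem_univ 0), hs]
      have e3 := congrArg (algebraMap (𝓞 K) K) e2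
      rw [map_add, map_sum, map_zero] at e3
      exact eq_neg_of_add_eq_zero_left e3
    rw [e1]
    have e2 : w (-∑ k ∈ univ.erase (0 : Fin (N + 1)), (x k : K)) =
        w (∑ k ∈ univ.erase (0 : Fin (N + 1)), (x k : K)) := w.1.map_neg _
    rw [e2]
    refine (w_sum_le w _ _ fun i hi => hx i (ne_of_mem_erase hi) w).trans ?_
    rw [card_erase_of_mem (mem_univ _), card_univ, Fintype.card_fin, Nat.add_sub_cancel]
    nlinarith
  · refine (hx k hk w).trans ?_
    nlinarith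

lemma Tp_ex (hN : 1 ≤ N) {D : Fin (N + 1) → Idl K} (h : Tp (Dl (N + 1) (N + 1 - 2)) D) (v : Pr K)
    (i : Fin (N + 1)) : ∃ k, k ≠ i ∧ D k v = 0 := by
  classical
  by_contra hcon
  push Not at hcon
  have h1 := h v
  unfold Dl at h1
  rw [mem_filter] at h1
  have h2 := h1.2
  have h3 : univ.erase i ⊆ univ.filter fun i => D i v ≠ 0 := by
    intro k hk
    rw [mem_filter]
    exact ⟨mem_univ _, hcon k (ne_of_mem_erase hk)⟩
  have h4 := card_le_card h3
  rw [card_erase_of_mem (mem_univ _), card_univ, Fintype.card_fin] at h4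
  have h5 : (univ.filter fun i => D i v ≠ 0).card ≤ N + 1 - 2 := by
    convert h2
  omega

end Count

theorem lownk (K : Type) [Field K] [NumberField K] (h0 : S_BASN K) (h1 : S_SEQ0 K) (h2 : S_TEL K)
    (h3 : S_BXU K) (h4 : S_BXL K) : S_LOWNK K := by
  classical
  intro n hn
  obtain ⟨N, rfl⟩ : ∃ N, n = N + 1 := ⟨n - 1, by omega⟩
  have hN : 2 ≤ N := by omega
  have hN1 : 1 ≤ N := by omega
  obtain ⟨C1, hC1, hbox⟩ := box1 h1
  obtain ⟨CB, hCB, hbig⟩ := big (K := K) h1 hN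
  obtain ⟨CU, hCU, hU⟩ := h3 N hN
  obtain ⟨c2, hc2, hL⟩ := h4 N hN
  obtain ⟨Cp, hCp, _, hpr⟩ := Pool.Agent.N803.RS.cnt K
  set d : ℕ := Module.finrank ℚ K with hd
  have hd0 : (0 : ℝ) < d := by
    have : 0 < d := Module.finrank_pos
    exact_mod_cast this
  have hN0 : (0 : ℝ) ≤ N := Nat.cast_nonneg _
  set a : ℝ := (N : ℝ) + 1 with ha
  have ha1 : 1 ≤ a := by linarith
  have ha0 : 0 < a := by linarith
  set z₀ : ℝ := 16 * a ^ 2 * CU * Cp / c2 + 2 with hz₀
  have hz2 : 2 ≤ z₀ := by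
    rw [hz₀]
    have : 0 < 16 * a ^ 2 * CU * Cp / c2 := by positivity
    linarith
  obtain ⟨m, hm⟩ := exists_m (K := K) z₀
  set L : ℝ := len m with hLdef
  have hL0 : 0 ≤ L := len_nonneg m
  set la : ℝ := Real.log a with hla
  have hla0 : 0 ≤ la := Real.log_nonneg ha1
  set A : ℝ := N * (d * la) + N * L with hA
  have hA0 : 0 ≤ A := by positivity
  set q1 : ℝ := Real.log (8 * a ^ 2 * CB * Cp / c2) with hq1
  set q2 : ℝ := Real.log (8 * 2 ^ (N + 1) * (2 * C1) ^ (N - 1) / c2) with hq2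
  set W : ℝ := C1 * (2 ^ d + 1) with hW
  have hW0 : 0 < W := by positivity
  have hdla : 0 ≤ d * la := by positivity
  have hexq1 : Real.exp q1 = 8 * a ^ 2 * CB * Cp / c2 := Real.exp_log (by positivity)
  have hexq2 : Real.exp q2 = 8 * 2 ^ (N + 1) * (2 * C1) ^ (N - 1) / c2 :=
    Real.exp_log (by positivity)
  refine ⟨c2 / (8 * a * CU), c2 * Real.exp (-A) / (2 * W),
    1 + 2 * L + 2 * (d * la) + |Real.log c2| + 2 * A + 2 * |q1| + |q2|, z₀,
    by positivity, by positivity, by positivity, by linarith, ?_⟩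
  intro X P₀ D hP₀ hTp hsp hrs hX
  have hT0 : 0 ≤ tl D := tl_nonneg D
  set T : ℝ := tl D with hT
  have habs1 := le_abs_self q1
  have habs1' := abs_nonneg q1
  have habs2 := le_abs_self q2
  have habs2' := abs_nonneg q2
  have habs3 := neg_abs_le (Real.log c2)
  have habs3' := abs_nonneg (Real.log c2)
  have hX0 : 0 ≤ X := by linarith
  set R : ℝ := Real.exp (X / d) / a with hRdef
  have hR0 : 0 < R := by positivity
  have hlogR : d * Real.log R = X - d * la := by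
    rw [hRdef, Real.log_div (Real.exp_pos _).ne' ha0.ne', Real.log_exp, mul_sub,
      mul_div_cancel₀ _ hd0.ne']
  have hR1 : 1 ≤ R := by
    have : 0 ≤ Real.log R := by
      have h5 : 0 ≤ d * Real.log R := by rw [hlogR]; linarith
      exact nonneg_of_mul_nonneg_right h5 hd0
    rw [← Real.exp_log hR0]
    exact Real.one_le_exp this
  set B : ℝ := a * R with hB
  have hBe : B = Real.exp (X / d) := by
    rw [hB, hRdef]
    field_simp
  have hBX : B ^ d = Real.exp X := by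
    rw [hBe, ← Real.exp_nat_mul]
    congr 1
    field_simp
  have hRd : R ^ d = Real.exp (X - d * la) := by
    rw [← hlogR, Real.exp_nat_mul, Real.exp_log hR0]
  set Y : ℝ := (X - T - (L + d * la)) / 2 with hY
  have hD2 := fun v i => Tp_ex hN1 hTp v i
  have hD1 : ∀ v, ∃ i, D i v = 0 := fun v => by
    obtain ⟨k, _, hk⟩ := hD2 v 0
    exact ⟨k, hk⟩
  have hmD : ∀ v, m v = 0 ∨ ∀ k, D k v = 0 := by
    intro v
    by_cases hv : Nv v ≤ z₀
    · right
      intro k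
      by_contra hk
      have := (hsp v (mem_sp.2 ⟨k, hk⟩)).1
      linarith
    · left
      rw [hm v, if_neg hv]
  -- the residue classes
  set i1 : Fin (N + 1) := ⟨1, by omega⟩ with hi1
  set i2 : Fin (N + 1) := ⟨2, by omega⟩ with hi2
  have hi12 : i1 ≠ i2 := by
    intro h
    have := congrArg Fin.val h
    simp [hi1, hi2] at this
  have hi10 : i1 ≠ 0 := by
    intro h
    have := congrArg Fin.val h
    simp [hi1] at this
  set c : Fin (N + 1) → 𝓞 K := Pi.single i1 1 - Pi.single i2 1 with hc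
  have hc1 : c i1 = 1 := by
    rw [hc, Pi.sub_apply, Pi.single_eq_same, Pi.single_eq_of_ne hi12, sub_zero]
  have hcs : ∑ k, c k = 0 := by
    rw [hc]
    simp [Finset.sum_sub_distrib]
  obtain ⟨F₀, hF₀, hF₀c⟩ := hL R D m c hR1 hD1 hmD hcs (by
    rw [hRd, ← Real.exp_log hc2, ← Real.exp_add]
    apply Real.exp_le_exp.2
    show T + L ≤ _
    linarith)
  have hF1 : ∀ x ∈ F₀, ∀ k (w : InfinitePlace K), w (x k : K) ≤ (N + 1) * R := fun x hx =>
    all_le hR0.le (hF₀ x hx).1 fun k hk w => ((hF₀ x hx).2.2.2 k hk w).2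
  have hSt : St D m c R z₀ F₀ := ⟨hR1, hD2, hm, fun v hv => (hsp v hv).1, fun x hx =>
    ⟨(hF₀ x hx).1, (hF₀ x hx).2.1, (hF₀ x hx).2.2.1, hF1 x hx⟩⟩
  have hB0 : 0 < B := by rw [hBe]; exact Real.exp_pos _
  have hYX : 2 * Y = X - T - (L + d * la) := by rw [hY]; ring
  have hbad := hSt.bad hN (CB := CB) (C1 := C1 * (Real.exp X + 1)) (Cp := Cp) (P₀ := P₀) (X := X)
    (Y := Y) (B := B) hU hCU hCB hbig (fun G hG => by
      have := hbox B G hB0 hG
      rw [hBX] at this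
      exact this) hpr rfl hBX (by linarith) (by linarith) hP₀
    (fun v hv => (hsp v hv).2) (by rw [← hd, hlogR]; linarith) (by rw [← hd, hlogR]; linarith)
  rw [← hd, ← ha, ← hT, ← hLdef] at hbad
  rw [← hT, ← hLdef] at hF₀c
  set E0 : ℝ := Real.exp (N * (d * Real.log R) - T - N * L) with hE0
  have hE0p : 0 < E0 := Real.exp_pos _
  have hE0' : E0 = Real.exp (N * X - A - T) := by
    rw [hE0, hlogR]
    congr 1
    rw [hA]
    ring
  have hexpN : Real.exp X ^ N = Real.exp (N * X) := by rw [← Real.exp_nat_mul]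
  -- the estimates
  have e1 : a * (CU * E0 * rs D) ≤ c2 / 8 * E0 := by
    have h5 : a * CU * rs D ≤ c2 / 8 := by
      have h6 := mul_le_mul_of_nonneg_left hrs (by positivity : 0 ≤ a * CU)
      have h7 : a * CU * (c2 / (8 * a * CU)) = c2 / 8 := by field_simp
      linarith
    have h6 := mul_le_mul_of_nonneg_right h5 hE0p.le
    linarith
  have e3 : a ^ 2 * (CU * E0 * (Cp / z₀)) ≤ c2 / 16 * E0 := by
    have h5 : a ^ 2 * CU * (Cp / z₀) ≤ c2 / 16 := by
      have h6 : 16 * a ^ 2 * CU * Cp ≤ c2 * z₀ := by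
        rw [hz₀]
        have : c2 * (16 * a ^ 2 * CU * Cp / c2 + 2) = 16 * a ^ 2 * CU * Cp + 2 * c2 := by
          field_simp
        rw [this]
        linarith
      have hz0 : 0 < z₀ := by linarith
      rw [← mul_div_assoc, div_le_iff₀ hz0]
      linarith
    have h6 := mul_le_mul_of_nonneg_right h5 hE0p.le
    linarith
  have e2 : a * (CU * E0 * (Cp / z₀)) ≤ c2 / 16 * E0 := by
    refine le_trans ?_ e3
    apply mul_le_mul_of_nonneg_right
    · nlinarith
    · have : 0 < z₀ := by linarith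
      positivity
  have e4 : a ^ 2 * (CB * Real.exp X ^ N * (Cp / Real.exp Y)) ≤ c2 / 8 * E0 := by
    have h5 : a ^ 2 * (CB * Real.exp X ^ N * (Cp / Real.exp Y)) =
        c2 / 8 * (Real.exp q1 * Real.exp (N * X) * Real.exp (-Y)) := by
      rw [hexq1, hexpN, Real.exp_neg]
      field_simp
    rw [h5, ← Real.exp_add, ← Real.exp_add, hE0']
    apply mul_le_mul_of_nonneg_left _ (by positivity)
    apply Real.exp_le_exp.2
    linarith
  have e5 : 2 ^ (N + 1) * (C1 * (Real.exp X + 1)) ^ (N - 1) ≤ c2 / 8 * E0 := by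
    have h5 : C1 * (Real.exp X + 1) ≤ 2 * C1 * Real.exp X := by
      have := Real.one_le_exp hX0
      nlinarith
    have h6 : (C1 * (Real.exp X + 1)) ^ (N - 1) ≤ (2 * C1 * Real.exp X) ^ (N - 1) :=
      pow_le_pow_left₀ (by positivity) h5 _
    have h7 : (2 * C1 * Real.exp X) ^ (N - 1) =
        (2 * C1) ^ (N - 1) * Real.exp ((N - 1) * X) := by
      rw [mul_pow, ← Real.exp_nat_mul, Nat.cast_sub hN1, Nat.cast_one]
    have h8 : 2 ^ (N + 1) * ((2 * C1) ^ (N - 1) * Real.exp ((N - 1) * X)) =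
        c2 / 8 * (Real.exp q2 * Real.exp ((N - 1) * X)) := by
      rw [hexq2]
      field_simp
    calc 2 ^ (N + 1) * (C1 * (Real.exp X + 1)) ^ (N - 1)
        ≤ 2 ^ (N + 1) * (2 * C1 * Real.exp X) ^ (N - 1) :=
          mul_le_mul_of_nonneg_left h6 (by positivity)
      _ = c2 / 8 * (Real.exp q2 * Real.exp ((N - 1) * X)) := by rw [h7, h8]
      _ ≤ c2 / 8 * E0 := by
        rw [← Real.exp_add, hE0']
        apply mul_le_mul_of_nonneg_left _ (by positivity)
        apply Real.exp_le_exp.2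
        linarith
  set F₁ : Finset (Fin (N + 1) → 𝓞 K) := F₀.filter fun x => Gd D z₀ P₀ Y X x with hF₁
  have hbad2 := hbad (F₀.filter fun x => ¬ Gd D z₀ P₀ Y X x) (filter_subset _ _)
    (fun x hx => (mem_filter.1 hx).2)
  have hsplit : (F₀.card : ℝ) = (F₁.card : ℝ) +
      ((F₀.filter fun x => ¬ Gd D z₀ P₀ Y X x).card : ℝ) := by
    rw [hF₁, ← Nat.cast_add, card_filter_add_card_filter_not]
  have hF₁c : c2 / 2 * E0 ≤ F₁.card := by linarith
  obtain ⟨F, hF, hFc⟩ := points (C2 := W) (D := D) (z₀ := z₀) (P₀ := P₀) (Y := Y) (X := X)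
    (B := B) (R := R) (i1 := i1) (fun G hG => hbox 2 G (by norm_num) hG) h0 hN1 hR0 hBX F₁ (by
      intro x hx
      rw [hF₁, mem_filter] at hx
      obtain ⟨a1, a2, a3, a4⟩ := hF₀ x hx.1
      refine ⟨a1, a2, hx.2, ?_, hF1 x hx.1, a4 i1 hi10⟩
      intro v
      exact hx.2.unit hN1 (hF1 x hx.1) hBX hm hc1 a3 hD1 v)
  refine ⟨F, hF, ?_⟩
  have h5 : c2 / 2 * E0 ≤ W * F.card := hF₁c.trans hFc
  have h6 : (((N + 1 : ℕ) : ℝ) - 1) * X - T = (N * X - A - T) + A := by
    push_cast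
    ring
  rw [h6, Real.exp_add, ← hE0']
  have h7 : c2 * Real.exp (-A) / (2 * W) * (E0 * Real.exp A) = c2 / 2 * E0 / W := by
    have h8 : Real.exp (-A) * Real.exp A = 1 := by
      rw [← Real.exp_add]
      simp
    calc c2 * Real.exp (-A) / (2 * W) * (E0 * Real.exp A)
        = c2 / 2 * E0 / W * (Real.exp (-A) * Real.exp A) := by
          field_simp
      _ = c2 / 2 * E0 / W := by rw [h8, mul_one]
  rw [h7, div_le_iff₀ hW0]
  linarith

end Pool.Agent.N216.KG
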